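import Pool.Agent.Helper547.LN.Defs

set_option autoImplicit false

open MeasureTheory ProbabilityTheory Filter Topology
open scoped ENNReal NNReal unitInterval

universe u v w

namespace Pool.Agent.LNN



theorem comp {X : Type u} [NormedAddCommGroup X] [NormedSpace ℝ X] {B : Type v}
    [NormedAddCommGroup B] [NormedSpace ℝ B] (h : EmbedsIn X B) :
    EmbedsIn (L1I X) (L1I B) := by
  obtain ⟨T, c, hc, hT⟩ := h
  refine ⟨ContinuousLinearMap.compLpL 1 mu01 T, c, hc, fun f => ?_⟩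
  have hle : ‖f‖ ≤ c⁻¹ * ‖ContinuousLinearMap.compLpL 1 mu01 T f‖ := by
    apply Lp.norm_le_mul_norm_of_ae_le_mul
    filter_upwards [ContinuousLinearMap.coeFn_compLpL (p := 1) (μ := mu01) T f] with w hw
    rw [hw, ← div_eq_inv_mul, le_div_iff₀ hc, mul_comm]
    exact hT _
  calc c * ‖f‖ ≤ c * (c⁻¹ * ‖ContinuousLinearMap.compLpL 1 mu01 T f‖) := by gcongr
    _ = ‖ContinuousLinearMap.compLpL 1 mu01 T f‖ := by
      rw [← mul_assoc, mul_inv_cancel₀ hc.ne', one_mul]

end Pool.Agent.LNN
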