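import Pool.Agent.Helper547.LN.Defs

set_option autoImplicit false

open MeasureTheory ProbabilityTheory Filter Topology
open scoped ENNReal NNReal unitInterval

universe u v w

namespace Pool.Agent.LNN



/-- index of the interval containing `x` -/
noncomputable def eNN (x : ℝ) : ℕ := ⌊x⁻¹⌋₊ - 1

theorem meas_eNN : Measurable eNN := by
  unfold eNN
  exact (measurable_from_top (f := fun n : ℕ => n - 1)).comp
    (Nat.measurable_floor.comp measurable_inv)

theorem pos_eNN (n : ℕ) : 0 < mu01 (eNN ⁻¹' {n}) := by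
  have hsub : Set.Ioo (1/((n:ℝ)+2)) (1/((n:ℝ)+1)) ⊆ eNN ⁻¹' {n} ∩ Set.Icc 0 1 := by
    intro x hx
    obtain ⟨h1, h2⟩ := hx
    have hx0 : 0 < x := lt_trans (by positivity) h1
    have h3 : (n:ℝ)+1 < x⁻¹ := by
      rw [lt_inv_comm₀ (by positivity) hx0, ← one_div]; exact h2
    have h4 : x⁻¹ < (n:ℝ)+2 := by
      rw [inv_lt_comm₀ hx0 (by positivity), ← one_div]; exact h1
    refine ⟨?_, hx0.le, ?_⟩
    · have h5 : ⌊x⁻¹⌋₊ = n + 1 := by
        rw [Nat.floor_eq_iff (by positivity)]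
        push_cast
        constructor <;> linarith
      simp [eNN, h5]
    · have h6 : 1/((n:ℝ)+1) ≤ 1 := by
        rw [div_le_one (by positivity)]
        linarith [Nat.cast_nonneg (α := ℝ) n]
      linarith
  have hlt : 1/((n:ℝ)+2) < 1/((n:ℝ)+1) :=
    one_div_lt_one_div_of_lt (by positivity) (by linarith)
  rw [Measure.restrict_apply (meas_eNN (measurableSet_singleton n))]
  refine lt_of_lt_of_le ?_ (measure_mono hsub)
  rw [Real.volume_Ioo]
  exact ENNReal.ofReal_pos.2 (by linarith)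

/-- normalisation -/
noncomputable def ew (n : ℕ) : ℝ := (mu01 (eNN ⁻¹' {n})).toReal⁻¹

/-- the step function with values `a n * ew n` -/
noncomputable def eF (a : ℕ → ℝ) (x : ℝ) : ℝ := a (eNN x) * ew (eNN x)

theorem lint_eF (a : ℕ → ℝ) : ∫⁻ x, ‖eF a x‖ₑ ∂mu01 = ∑' n, ‖a n‖ₑ := by
  have h1 : ∫⁻ x, ‖eF a x‖ₑ ∂mu01 = ∫⁻ n, ‖a n * ew n‖ₑ ∂(mu01.map eNN) := by
    rw [lintegral_map measurable_from_top meas_eNN]
    rfl
  rw [h1, lintegral_countable']
  congr 1
  ext n
  rw [Measure.map_apply meas_eNN (measurableSet_singleton n), enorm_mul]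
  have hpos := pos_eNN n
  have hfin : mu01 (eNN ⁻¹' {n}) ≠ ⊤ := measure_ne_top _ _
  have h2 : ‖ew n‖ₑ = (mu01 (eNN ⁻¹' {n}))⁻¹ := by
    unfold ew
    rw [Real.enorm_of_nonneg (by positivity), ← ENNReal.toReal_inv,
      ENNReal.ofReal_toReal (ENNReal.inv_ne_top.2 hpos.ne')]
  rw [h2, mul_assoc, ENNReal.inv_mul_cancel hpos.ne' hfin, mul_one]

theorem lp_summ (a : lp (fun _ : ℕ => ℝ) 1) : Summable (fun n => ‖a n‖) := by
  have h := (lp.memℓp a).summable (by simp)
  simpa using h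

theorem lp_norm1 (a : lp (fun _ : ℕ => ℝ) 1) : ‖a‖ = ∑' n, ‖a n‖ := by
  rw [lp.norm_eq_tsum_rpow (by simp) a]
  simp

theorem lint_eF2 (a : lp (fun _ : ℕ => ℝ) 1) :
    ∫⁻ x, ‖eF a x‖ₑ ∂mu01 = ENNReal.ofReal ‖a‖ := by
  rw [lint_eF, lp_norm1, ENNReal.ofReal_tsum_of_nonneg (fun n => norm_nonneg _) (lp_summ a)]
  congr 1
  ext n
  rw [ofReal_norm_eq_enorm]

theorem mem_eF (a : lp (fun _ : ℕ => ℝ) 1) : MemLp (eF a) 1 mu01 := by
  refine ⟨?_, ?_⟩
  · have : Measurable (eF a) :=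
      (measurable_from_top (f := fun n : ℕ => a n * ew n)).comp meas_eNN
    exact this.aestronglyMeasurable
  · rw [eLpNorm_one_eq_lintegral_enorm, lint_eF2]
    exact ENNReal.ofReal_lt_top

theorem norm_eF (a : lp (fun _ : ℕ => ℝ) 1) : ‖(mem_eF a).toLp (eF a)‖ = ‖a‖ := by
  rw [Lp.norm_toLp, eLpNorm_one_eq_lintegral_enorm, lint_eF2, ENNReal.toReal_ofReal (norm_nonneg _)]

theorem ell1L1 : EmbedsIn (lp (fun _ : ℕ => ℝ) 1) (L1I ℝ) := by
  let T0 : lp (fun _ : ℕ => ℝ) 1 →ₗ[ℝ] L1I ℝ :=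
    { toFun := fun a => (mem_eF a).toLp (eF a)
      map_add' := by
        intro a b
        rw [← MemLp.toLp_add]
        apply MemLp.toLp_congr
        refine Eventually.of_forall fun x => ?_
        simp only [eF, Pi.add_apply, lp.coeFn_add]
        ring
      map_smul' := by
        intro r a
        rw [RingHom.id_apply, ← MemLp.toLp_const_smul]
        apply MemLp.toLp_congr
        refine Eventually.of_forall fun x => ?_
        simp only [eF, Pi.smul_apply, lp.coeFn_smul, smul_eq_mul]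
        ring }
  refine ⟨T0.mkContinuous 1 (fun a => ?_), 1, one_pos, fun a => ?_⟩
  · rw [one_mul]
    exact (norm_eF a).le
  · rw [one_mul, LinearMap.mkContinuous_apply]
    exact (norm_eF a).ge

end Pool.Agent.LNN
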