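import Pool.Agent.Helper547.LN.Defs

set_option autoImplicit false

open MeasureTheory ProbabilityTheory Filter Topology
open scoped ENNReal NNReal unitInterval

universe u v w

namespace Pool.Agent.LNN



namespace EL563

open scoped InnerProductSpace

instance : IsProbabilityMeasure mu01 := ⟨by simp [mu01]⟩

/-- The real Hilbert space of square summable sequences. -/
abbrev H2 : Type := lp (fun _ : ℕ => ℝ) 2

lemma exists_gauss : ∃ g : ℕ → ℝ → ℝ, (∀ n, Measurable (g n)) ∧ iIndepFun g mu01 ∧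
    ∀ n, mu01.map (g n) = gaussianReal 0 1 := by
  obtain ⟨φ, hφm, hφ⟩ := Measure.exists_measurable_map_eq
    (Measure.infinitePi (fun _ : ℕ => gaussianReal 0 1))
  let pr : ℝ → I := Set.projIcc (0 : ℝ) 1 zero_le_one
  have hprm : Measurable pr := continuous_projIcc.measurable
  have hpr : mu01.map pr = (volume : Measure I) := by
    have h1 := unitInterval.measurePreserving_coe.map_eq
    have h2 : mu01 = (volume : Measure I).map (fun x : I => (x : ℝ)) := h1.symm
    rw [h2, Measure.map_map hprm measurable_subtype_coe]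
    have : pr ∘ (fun x : I => (x : ℝ)) = id := by
      funext x
      exact Set.projIcc_val zero_le_one x
    rw [this, Measure.map_id]
  have hmap : mu01.map (fun t => φ (pr t)) = Measure.infinitePi (fun _ : ℕ => gaussianReal 0 1) := by
    rw [← hφ, ← hpr, Measure.map_map hφm hprm]
    rfl
  have hm : ∀ n, Measurable (fun t => φ (pr t) n) := fun n =>
    (measurable_pi_apply n).comp (hφm.comp hprm)
  have hlaw : ∀ n, mu01.map (fun t => φ (pr t) n) = gaussianReal 0 1 := by
    intro n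
    have hc : Measurable (fun t => φ (pr t)) := hφm.comp hprm
    have h3 : mu01.map (fun t => φ (pr t) n) = (mu01.map (fun t => φ (pr t))).map (fun ω => ω n) := by
      rw [Measure.map_map (measurable_pi_apply n) hc]
      rfl
    rw [h3, hmap, Measure.infinitePi_map_eval]
  refine ⟨fun n t => φ (pr t) n, hm, ?_, hlaw⟩
  rw [iIndepFun_iff_map_fun_eq_infinitePi_map hm]
  simp_rw [hlaw]
  exact hmap

/-- An iid sequence of standard Gaussian variables on `[0,1]`. -/
noncomputable def gs : ℕ → ℝ → ℝ := exists_gauss.choose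

@[fun_prop]
lemma gs_meas (n : ℕ) : Measurable (gs n) := exists_gauss.choose_spec.1 n

lemma gs_indep : iIndepFun gs mu01 := exists_gauss.choose_spec.2.1

lemma gs_law (n : ℕ) : mu01.map (gs n) = gaussianReal 0 1 := exists_gauss.choose_spec.2.2 n

lemma gs_memLp (n : ℕ) : MemLp (gs n) 2 mu01 := by
  have h := memLp_id_gaussianReal' (μ := 0) (v := 1) 2 (by norm_num)
  rw [← gs_law n] at h
  exact (memLp_map_measure_iff aestronglyMeasurable_id (gs_meas n).aemeasurable).mp h

lemma gs_int (n : ℕ) : ∫ t, gs n t ∂mu01 = 0 := by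
  have h : ∫ x, x ∂(mu01.map (gs n)) = 0 := by
    rw [gs_law n]
    exact integral_id_gaussianReal
  rwa [integral_map (gs_meas n).aemeasurable (by fun_prop)] at h

lemma gs_sq (n : ℕ) : ∫ t, gs n t * gs n t ∂mu01 = 1 := by
  have h := variance_fun_id_gaussianReal (μ := 0) (v := 1)
  rw [variance_eq_integral (by fun_prop), integral_id_gaussianReal] at h
  have h2 : ∫ x, x * x ∂(mu01.map (gs n)) = 1 := by
    rw [gs_law n]
    rw [show (((1 : ℝ≥0) : ℝ)) = 1 from rfl] at h
    rw [← h]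
    congr 1
    funext x
    ring
  rwa [integral_map (gs_meas n).aemeasurable (by fun_prop)] at h2

/-- The Gaussian variables as elements of `L²[0,1]`. -/
noncomputable def gL (n : ℕ) : Lp ℝ 2 mu01 := (gs_memLp n).toLp (gs n)

lemma gL_coe (n : ℕ) : gL n =ᵐ[mu01] gs n := (gs_memLp n).coeFn_toLp

lemma gL_inner (m n : ℕ) : ⟪gL m, gL n⟫_ℝ = ∫ t, gs n t * gs m t ∂mu01 := by
  rw [MeasureTheory.L2.inner_def]
  apply integral_congr_ae
  filter_upwards [gL_coe m, gL_coe n] with t h1 h2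
  rw [h1, h2]
  rfl

lemma gL_orthonormal : Orthonormal ℝ gL := by
  classical
  rw [orthonormal_iff_ite]
  intro m n
  rw [gL_inner]
  split_ifs with h
  · subst h
    exact gs_sq m
  · have hind : IndepFun (gs n) (gs m) mu01 := gs_indep.indepFun (Ne.symm h)
    have h1 := hind.integral_mul_eq_mul_integral (gs_meas n).aestronglyMeasurable
      (gs_meas m).aestronglyMeasurable
    have h2 : ∫ t, gs n t * gs m t ∂mu01 = (∫ t, gs n t ∂mu01) * ∫ t, gs m t ∂mu01 := h1
    rw [h2, gs_int, zero_mul]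

/-- The Gaussian isometry from `ℓ²` into `L²[0,1]`. -/
noncomputable def G : H2 →ₗᵢ[ℝ] Lp ℝ 2 mu01 := gL_orthonormal.orthogonalFamily.linearIsometry

lemma G_hasSum (v : H2) : HasSum (fun i => v i • gL i) (G v) := by
  have h := gL_orthonormal.orthogonalFamily.hasSum_linearIsometry v
  simp only [LinearIsometry.toSpanSingleton_apply] at h
  exact h

lemma integral_exp_sum (s : Finset ℕ) (a : ℕ → ℝ) :
    ∫ t, Complex.exp ((∑ i ∈ s, a i * gs i t : ℝ) * Complex.I) ∂mu01 =
      Complex.exp (-((∑ i ∈ s, a i ^ 2 : ℝ) : ℂ) / 2) := by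
  have hm : ∀ i, Measurable (fun t => a i * gs i t) := fun i => (gs_meas i).const_mul _
  have hind : iIndepFun (fun i t => a i * gs i t) mu01 :=
    gs_indep.comp (fun i x => a i * x) (fun i => measurable_const_mul _)
  have h1 := iIndepFun.charFun_map_fun_finsetSum_eq_prod (s := s)
    (X := fun i t => a i * gs i t) (P := mu01) (fun i _ => (hm i).aemeasurable) (hind.restrict _)
  have h2 := congrFun h1 1
  rw [charFun_apply_real, integral_map (by fun_prop) (by fun_prop)] at h2
  simp only [Complex.ofReal_one, one_mul] at h2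
  rw [h2]
  have h3 : ∀ i, charFun (mu01.map (fun t => a i * gs i t)) 1 =
      Complex.exp (-((a i ^ 2 : ℝ) : ℂ) / 2) := by
    intro i
    have h4 : mu01.map (fun t => a i * gs i t) = gaussianReal 0 (NNReal.mk (a i ^ 2) (sq_nonneg _)) := by
      have h5 : mu01.map (fun t => a i * gs i t) = (mu01.map (gs i)).map (fun x => a i * x) := by
        rw [Measure.map_map (measurable_const_mul _) (gs_meas i)]
        rfl
      rw [h5, gs_law, gaussianReal_map_const_mul]
      simp
    rw [h4, charFun_gaussianReal]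
    simp
    ring_nf
  rw [Finset.prod_apply]
  simp_rw [h3]
  rw [← Complex.exp_sum]
  congr 1
  push_cast
  rw [← Finset.sum_div, Finset.sum_neg_distrib]

lemma norm_cexp_sub_le (a b : ℝ) :
    ‖Complex.exp ((a : ℂ) * Complex.I) - Complex.exp ((b : ℂ) * Complex.I)‖ ≤ ‖a - b‖ := by
  have h1 : Complex.exp ((a : ℂ) * Complex.I) - Complex.exp ((b : ℂ) * Complex.I) =
      Complex.exp ((b : ℂ) * Complex.I) * (Complex.exp (Complex.I * ((a - b : ℝ) : ℂ)) - 1) := by
    rw [mul_sub, mul_one, ← Complex.exp_add]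
    congr 2
    push_cast
    ring
  rw [h1, norm_mul, Complex.norm_exp_ofReal_mul_I, one_mul]
  exact Real.norm_exp_I_mul_ofReal_sub_one_le

lemma integrable_cexp (f : ℝ → ℝ) (hf : AEStronglyMeasurable f mu01) :
    Integrable (fun t => Complex.exp ((f t : ℂ) * Complex.I)) mu01 := by
  refine Integrable.mono' (integrable_const (1 : ℝ)) ?_ (Eventually.of_forall fun t => ?_)
  · have hc : Continuous (fun x : ℝ => Complex.exp ((x : ℂ) * Complex.I)) := by fun_prop
    exact hc.comp_aestronglyMeasurable hf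
  · rw [Complex.norm_exp_ofReal_mul_I]

lemma norm_int_cexp_sub_le (f h : Lp ℝ 2 mu01) :
    ‖(∫ t, Complex.exp ((f t : ℂ) * Complex.I) ∂mu01) -
      ∫ t, Complex.exp ((h t : ℂ) * Complex.I) ∂mu01‖ ≤ ‖f - h‖ := by
  have hf := Lp.aestronglyMeasurable f
  have hh := Lp.aestronglyMeasurable h
  rw [← integral_sub (integrable_cexp _ hf) (integrable_cexp _ hh)]
  have h1 : MemLp (fun t => f t - h t) 1 mu01 :=
    ((Lp.memLp f).sub (Lp.memLp h)).mono_exponent (by norm_num)
  calc _ ≤ ∫ t, ‖f t - h t‖ ∂mu01 := by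
        refine norm_integral_le_of_norm_le (memLp_one_iff_integrable.mp h1).norm
          (Eventually.of_forall fun t => ?_)
        exact norm_cexp_sub_le _ _
    _ = (eLpNorm (fun t => f t - h t) 1 mu01).toReal := by
        rw [eLpNorm_one_eq_lintegral_enorm, integral_norm_eq_lintegral_enorm h1.1]
    _ ≤ (eLpNorm (fun t => f t - h t) 2 mu01).toReal := by
        apply ENNReal.toReal_mono ((Lp.memLp f).sub (Lp.memLp h)).2.ne
        exact eLpNorm_le_eLpNorm_of_exponent_le (by norm_num) h1.1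
    _ = ‖f - h‖ := by
        rw [Lp.norm_def]
        congr 1
        apply eLpNorm_congr_ae
        exact (Lp.coeFn_sub f h).symm

lemma G_char (v : H2) : ∫ t, Complex.exp (((G v : Lp ℝ 2 mu01) t : ℂ) * Complex.I) ∂mu01 =
    Complex.exp (-((‖v‖ ^ 2 : ℝ) : ℂ) / 2) := by
  have hs := G_hasSum v
  have h1 : Tendsto (fun s : Finset ℕ => ∫ t,
      Complex.exp ((((∑ i ∈ s, v i • gL i : Lp ℝ 2 mu01)) t : ℂ) * Complex.I) ∂mu01) atTop
      (𝓝 (∫ t, Complex.exp (((G v : Lp ℝ 2 mu01) t : ℂ) * Complex.I) ∂mu01)) := by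
    rw [tendsto_iff_norm_sub_tendsto_zero]
    have h2 := tendsto_iff_norm_sub_tendsto_zero.mp hs
    exact squeeze_zero (fun _ => norm_nonneg _) (fun s => norm_int_cexp_sub_le _ _) h2
  have h3 : ∀ s : Finset ℕ, ∫ t,
      Complex.exp ((((∑ i ∈ s, v i • gL i : Lp ℝ 2 mu01)) t : ℂ) * Complex.I) ∂mu01 =
      Complex.exp (-((∑ i ∈ s, v i ^ 2 : ℝ) : ℂ) / 2) := by
    intro s
    rw [← integral_exp_sum]
    apply integral_congr_ae
    have h4 : ((∑ i ∈ s, v i • gL i : Lp ℝ 2 mu01)) =ᵐ[mu01] fun t => ∑ i ∈ s, v i * gs i t := by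
      have h5 : ∀ i, (v i • gL i : Lp ℝ 2 mu01) =ᵐ[mu01] fun t => v i * gs i t := by
        intro i
        filter_upwards [Lp.coeFn_smul (v i) (gL i), gL_coe i] with t h6 h7
        rw [h6, Pi.smul_apply, h7, smul_eq_mul]
      have h8 := Lp.coeFn_finsetSum s (fun i => v i • gL i)
      have h9 : ∀ᵐ t ∂mu01, ∀ i ∈ s, (v i • gL i : Lp ℝ 2 mu01) t = v i * gs i t :=
        (Finset.eventually_all s).mpr fun i _ => h5 i
      filter_upwards [h8, h9] with t h10 h11
      rw [h10, Finset.sum_apply]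
      exact Finset.sum_congr rfl h11
    filter_upwards [h4] with t ht
    rw [ht]
  simp_rw [h3] at h1
  have h9 : HasSum (fun i => v i ^ 2) (‖v‖ ^ 2) := by
    have := lp.hasSum_norm (p := 2) (by norm_num) v
    simpa using this
  have h10 : Tendsto (fun s : Finset ℕ => Complex.exp (-((∑ i ∈ s, v i ^ 2 : ℝ) : ℂ) / 2)) atTop
      (𝓝 (Complex.exp (-((‖v‖ ^ 2 : ℝ) : ℂ) / 2))) := by
    have hc : Continuous (fun x : ℝ => Complex.exp (-(x : ℂ) / 2)) := by fun_prop
    exact (hc.tendsto _).comp h9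
  exact tendsto_nhds_unique h1 h10

lemma memLp_one (v : H2) : MemLp (G v : Lp ℝ 2 mu01) 1 mu01 :=
  (Lp.memLp (G v)).mono_exponent (by norm_num)

noncomputable def T0 : H2 →ₗ[ℝ] Lp ℝ 1 mu01 where
  toFun v := (memLp_one v).toLp _
  map_add' v w := by
    rw [← MemLp.toLp_add]
    apply MemLp.toLp_congr
    rw [map_add]
    exact Lp.coeFn_add _ _
  map_smul' c v := by
    rw [RingHom.id_apply, ← MemLp.toLp_const_smul]
    apply MemLp.toLp_congr
    rw [map_smul]
    exact Lp.coeFn_smul _ _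

lemma T0_norm (v : H2) : ‖T0 v‖ = (eLpNorm (G v : Lp ℝ 2 mu01) 1 mu01).toReal :=
  Lp.norm_toLp _ (memLp_one v)

lemma T0_le (v : H2) : ‖T0 v‖ ≤ 1 * ‖v‖ := by
  rw [T0_norm, one_mul]
  calc (eLpNorm (G v : Lp ℝ 2 mu01) 1 mu01).toReal
      ≤ (eLpNorm (G v : Lp ℝ 2 mu01) 2 mu01).toReal := by
        apply ENNReal.toReal_mono (Lp.memLp (G v)).2.ne
        exact eLpNorm_le_eLpNorm_of_exponent_le (by norm_num) (Lp.memLp (G v)).1
    _ = ‖G v‖ := (Lp.norm_def _).symm
    _ = ‖v‖ := G.norm_map v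

lemma T0_unit (w : H2) (hw : ‖w‖ = 1) : 1 - Real.exp (-1 / 2) ≤ ‖T0 w‖ := by
  have h1 := G_char w
  rw [hw] at h1
  have hm := memLp_one w
  have hf := Lp.aestronglyMeasurable (G w)
  have h2 : (∫ t, (Complex.exp (((G w : Lp ℝ 2 mu01) t : ℂ) * Complex.I) - 1) ∂mu01)
      = Complex.exp (-(((1:ℝ) ^ 2 : ℝ) : ℂ) / 2) - 1 := by
    rw [integral_sub (integrable_cexp _ hf) (integrable_const _), h1]
    simp
  have h3 : ‖∫ t, (Complex.exp (((G w : Lp ℝ 2 mu01) t : ℂ) * Complex.I) - 1) ∂mu01‖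
      ≤ ‖T0 w‖ := by
    rw [T0_norm]
    calc _ ≤ ∫ t, ‖(G w : Lp ℝ 2 mu01) t‖ ∂mu01 := by
          refine norm_integral_le_of_norm_le (memLp_one_iff_integrable.mp hm).norm
            (Eventually.of_forall fun t => ?_)
          have h4 := norm_cexp_sub_le ((G w : Lp ℝ 2 mu01) t) 0
          simpa using h4
      _ = (eLpNorm (G w : Lp ℝ 2 mu01) 1 mu01).toReal := by
          rw [eLpNorm_one_eq_lintegral_enorm, integral_norm_eq_lintegral_enorm hm.1]
  rw [h2] at h3
  refine le_trans ?_ h3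
  have h5 : Complex.exp (-(((1:ℝ) ^ 2 : ℝ) : ℂ) / 2) - 1 = ((Real.exp (-1 / 2) - 1 : ℝ) : ℂ) := by
    push_cast
    norm_num
  rw [h5, Complex.norm_real, Real.norm_eq_abs, abs_sub_comm]
  exact le_abs_self _

lemma T0_lower (v : H2) : (1 - Real.exp (-1 / 2)) * ‖v‖ ≤ ‖T0 v‖ := by
  by_cases hv : v = 0
  · rw [hv]; simp
  · have hn : 0 < ‖v‖ := norm_pos_iff.mpr hv
    have h1 := T0_unit (‖v‖⁻¹ • v) (by
      rw [norm_smul, norm_inv, norm_norm, inv_mul_cancel₀ hn.ne'])
    rw [map_smul, norm_smul, norm_inv, norm_norm] at h1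
    have h2 := mul_le_mul_of_nonneg_left h1 hn.le
    rw [← mul_assoc, mul_inv_cancel₀ hn.ne', one_mul] at h2
    linarith

end EL563

theorem ell2L1 : EmbedsIn (lp (fun _ : ℕ => ℝ) 2) (L1I ℝ) := by
  refine ⟨EL563.T0.mkContinuous 1 EL563.T0_le, 1 - Real.exp (-1 / 2), ?_, ?_⟩
  · have : Real.exp (-1 / 2) < 1 := by
      rw [Real.exp_lt_one_iff]
      norm_num
    linarith
  · intro v
    exact EL563.T0_lower v

end Pool.Agent.LNN
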