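import Pool.Agent.Helper547.LN.Defs

set_option autoImplicit false

open MeasureTheory ProbabilityTheory Filter Topology
open scoped ENNReal NNReal unitInterval

universe u v w

namespace Pool.Agent.LNN



theorem ellmono {X : Type u} [NormedAddCommGroup X] [NormedSpace ℝ X] {Y : Type v}
    [NormedAddCommGroup Y] [NormedSpace ℝ Y] (h : EmbedsIn X Y) :
    EmbedsIn (lp (fun _ : ℕ => X) 2) (lp (fun _ : ℕ => Y) 2) := by
  obtain ⟨T, c, hc, hT⟩ := h
  have h2 : (0:ℝ) < (2:ℝ≥0∞).toReal := by simp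
  have hsq : ∀ (Z : Type u) [NormedAddCommGroup Z] (x : lp (fun _ : ℕ => Z) 2),
      ‖x‖ ^ (2:ℕ) = ∑' n, ‖x n‖ ^ (2:ℕ) := by
    intro Z _ x
    have := lp.norm_rpow_eq_tsum h2 x
    simpa using this
  have hsq' : ∀ (x : lp (fun _ : ℕ => Y) 2), ‖x‖ ^ (2:ℕ) = ∑' n, ‖x n‖ ^ (2:ℕ) := by
    intro x
    have := lp.norm_rpow_eq_tsum h2 x
    simpa using this
  have hsum : ∀ (x : lp (fun _ : ℕ => X) 2), Summable (fun n => ‖x n‖ ^ (2:ℕ)) := by
    intro x
    have := (lp.memℓp x).summable h2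
    simpa using this
  have hle : ∀ (x : lp (fun _ : ℕ => X) 2) (n : ℕ),
      ‖T (x n)‖ ^ (2:ℕ) ≤ ‖T‖ ^ 2 * ‖x n‖ ^ (2:ℕ) := by
    intro x n
    rw [← mul_pow]
    exact pow_le_pow_left₀ (norm_nonneg _) (T.le_opNorm _) 2
  have hge : ∀ (x : lp (fun _ : ℕ => X) 2) (n : ℕ),
      c ^ 2 * ‖x n‖ ^ (2:ℕ) ≤ ‖T (x n)‖ ^ (2:ℕ) := by
    intro x n
    rw [← mul_pow]
    exact pow_le_pow_left₀ (by positivity) (hT _) 2
  have hsumT : ∀ (x : lp (fun _ : ℕ => X) 2), Summable (fun n => ‖T (x n)‖ ^ (2:ℕ)) := by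
    intro x
    exact Summable.of_nonneg_of_le (fun n => by positivity) (hle x) ((hsum x).mul_left _)
  have hmem : ∀ x : lp (fun _ : ℕ => X) 2, Memℓp (fun n => T (x n)) 2 := by
    intro x
    apply memℓp_gen
    simpa using hsumT x
  let L : (lp (fun _ : ℕ => X) 2) →ₗ[ℝ] (lp (fun _ : ℕ => Y) 2) :=
    { toFun := fun x => ⟨fun n => T (x n), hmem x⟩
      map_add' := by
        intro x y
        apply lp.ext
        funext n
        simp
        skip
      map_smul' := by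
        intro r x
        apply lp.ext
        funext n
        simp [lp.coeFn_smul] }
  have hL : ∀ x n, (L x) n = T (x n) := fun x n => rfl
  have hup : ∀ x, ‖L x‖ ≤ ‖T‖ * ‖x‖ := by
    intro x
    refine (sq_le_sq₀ (by positivity) (by positivity)).1 ?_
    rw [mul_pow, hsq' (L x), hsq X x, ← tsum_mul_left]
    exact Summable.tsum_le_tsum (hle x) (hsumT x) ((hsum x).mul_left _)
  have hlow : ∀ x, c * ‖x‖ ≤ ‖L x‖ := by
    intro x
    refine (sq_le_sq₀ (by positivity) (by positivity)).1 ?_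
    rw [mul_pow, hsq' (L x), hsq X x, ← tsum_mul_left]
    exact Summable.tsum_le_tsum (hge x) ((hsum x).mul_left _) (hsumT x)
  exact ⟨L.mkContinuous ‖T‖ hup, c, hc, hlow⟩

end Pool.Agent.LNN
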