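import Pool.Agent.Helper547.LN.Defs

set_option autoImplicit false

open MeasureTheory ProbabilityTheory Filter Topology
open scoped ENNReal NNReal unitInterval

universe u v w

namespace Pool.Agent.LNN



/-- tail convex combinations -/
def hilC {H : Type u} [NormedAddCommGroup H] [InnerProductSpace ℝ H] (g : ℕ → H) (K : Set ℕ)
    (n : ℕ) : Set H :=
  {v | ∃ (F : Finset ℕ) (w : ℕ → ℝ), (∀ k ∈ F, k ∈ K ∧ n ≤ k) ∧ (∀ k, 0 ≤ w k) ∧
    ∑ k ∈ F, w k = 1 ∧ v = ∑ k ∈ F, w k • g k}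

theorem hil_mid {H : Type u} [NormedAddCommGroup H] [InnerProductSpace ℝ H] (g : ℕ → H)
    (K : Set ℕ) (n : ℕ) (v1 v2 : H) (h1 : v1 ∈ hilC g K n) (h2 : v2 ∈ hilC g K n) :
    (1 / 2 : ℝ) • (v1 + v2) ∈ hilC g K n := by
  obtain ⟨F1, w1, a1, b1, c1, rfl⟩ := h1
  obtain ⟨F2, w2, a2, b2, c2, rfl⟩ := h2
  have s1 : ∑ k ∈ F1 ∪ F2, (if k ∈ F1 then w1 k else 0) = 1 := by
    rw [← c1, ← Finset.sum_filter]
    congr 1
    ext k
    simp only [Finset.mem_filter, Finset.mem_union]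
    tauto
  have s2 : ∑ k ∈ F1 ∪ F2, (if k ∈ F2 then w2 k else 0) = 1 := by
    rw [← c2, ← Finset.sum_filter]
    congr 1
    ext k
    simp only [Finset.mem_filter, Finset.mem_union]
    tauto
  have t1 : ∑ k ∈ F1 ∪ F2, (if k ∈ F1 then w1 k • g k else 0) = ∑ k ∈ F1, w1 k • g k := by
    rw [← Finset.sum_filter]
    congr 1
    ext k
    simp only [Finset.mem_filter, Finset.mem_union]
    tauto
  have t2 : ∑ k ∈ F1 ∪ F2, (if k ∈ F2 then w2 k • g k else 0) = ∑ k ∈ F2, w2 k • g k := by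
    rw [← Finset.sum_filter]
    congr 1
    ext k
    simp only [Finset.mem_filter, Finset.mem_union]
    tauto
  refine ⟨F1 ∪ F2, fun k => (1 / 2 : ℝ) * ((if k ∈ F1 then w1 k else 0) + (if k ∈ F2 then w2 k else 0)),
    ?_, ?_, ?_, ?_⟩
  · intro k hk
    rcases Finset.mem_union.mp hk with h | h
    · exact a1 k h
    · exact a2 k h
  · intro k
    have := b1 k
    have := b2 k
    show (0 : ℝ) ≤ (1 / 2 : ℝ) * ((if k ∈ F1 then w1 k else 0) + (if k ∈ F2 then w2 k else 0))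
    split_ifs <;> linarith
  · rw [← Finset.mul_sum, Finset.sum_add_distrib, s1, s2]; norm_num
  · rw [← t1, ← t2, ← Finset.sum_add_distrib, Finset.smul_sum]
    refine Finset.sum_congr rfl fun k _ => ?_
    rw [mul_smul]
    congr 1
    rw [add_smul]
    split_ifs <;> simp

theorem hil_mono {H : Type u} [NormedAddCommGroup H] [InnerProductSpace ℝ H] (g : ℕ → H)
    (K : Set ℕ) (n n' : ℕ) (h : n ≤ n') : hilC g K n' ⊆ hilC g K n := by
  rintro v ⟨F, w, a, b, c, d⟩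
  exact ⟨F, w, fun k hk => ⟨(a k hk).1, h.trans (a k hk).2⟩, b, c, d⟩

theorem hil {H : Type u} [NormedAddCommGroup H] [InnerProductSpace ℝ H] (g : ℕ → H) (B : ℝ)
    (hB : ∀ k, ‖g k‖ ≤ B) (K : Set ℕ) (hK : K.Infinite) (m : ℕ) (ε : ℝ) (hε : 0 < ε) :
    ∃ (F : ℕ → Finset ℕ) (w : ℕ → ℕ → ℝ), (∀ i, ∀ k ∈ F i, k ∈ K) ∧
      (∀ i j, i ≠ j → Disjoint (F i) (F j)) ∧ (∀ i k, 0 ≤ w i k) ∧
      (∀ i < m, ∑ k ∈ F i, w i k = 1) ∧
      (∀ i < m, ∀ j < m, ‖(∑ k ∈ F i, w i k • g k) - ∑ k ∈ F j, w j k • g k‖ ≤ ε) := by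
  classical
  -- infimum of norms
  have hne : ∀ n, ∃ k ∈ K, n ≤ k := by
    intro n
    obtain ⟨k, hk, hk2⟩ := hK.exists_gt n
    exact ⟨k, hk, hk2.le⟩
  have hmem : ∀ n k, k ∈ K → n ≤ k → g k ∈ hilC g K n := by
    intro n k hk hnk
    refine ⟨{k}, fun _ => 1, ?_, fun _ => zero_le_one, by simp, by simp⟩
    intro j hj
    rw [Finset.mem_singleton] at hj
    subst hj
    exact ⟨hk, hnk⟩
  let d : ℕ → ℝ := fun n => sInf (norm '' hilC g K n)
  have hbdd : ∀ n, BddBelow (norm '' hilC g K n) := fun n => ⟨0, by rintro _ ⟨v, _, rfl⟩; exact norm_nonneg _⟩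
  have hnon : ∀ n, (norm '' hilC g K n).Nonempty := by
    intro n
    obtain ⟨k, hk, hnk⟩ := hne n
    exact ⟨_, g k, hmem n k hk hnk, rfl⟩
  have hdB : ∀ n, d n ≤ B := by
    intro n
    obtain ⟨k, hk, hnk⟩ := hne n
    exact (csInf_le (hbdd n) ⟨g k, hmem n k hk hnk, rfl⟩).trans (hB k)
  have hd0 : ∀ n, 0 ≤ d n := fun n => le_csInf (hnon n) (by rintro _ ⟨v, _, rfl⟩; exact norm_nonneg _)
  have hbddA : BddAbove (Set.range d) := ⟨B, by rintro _ ⟨n, rfl⟩; exact hdB n⟩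
  set D : ℝ := ⨆ n, d n with hD
  have hdD : ∀ n, d n ≤ D := fun n => le_ciSup hbddA n
  have hD0 : 0 ≤ D := (hd0 0).trans (hdD 0)
  obtain ⟨η, hη, hη1, hη2⟩ : ∃ η : ℝ, 0 < η ∧ η ≤ 1 ∧ 8 * η * (2 * D + 1) ≤ ε ^ 2 := by
    refine ⟨min 1 (ε ^ 2 / (8 * (2 * D + 1))), ?_, min_le_left _ _, ?_⟩
    · exact lt_min one_pos (by positivity)
    · have h8 : 0 < 8 * (2 * D + 1) := by positivity
      have := min_le_right 1 (ε ^ 2 / (8 * (2 * D + 1)))
      rw [le_div_iff₀ h8] at this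
      linarith
  obtain ⟨n, hn⟩ : ∃ n, D - η < d n := exists_lt_of_lt_ciSup (by linarith)
  have hblock : ∀ N, ∃ (F : Finset ℕ) (w : ℕ → ℝ), (∀ k ∈ F, k ∈ K ∧ N ≤ k) ∧ (∀ k, 0 ≤ w k) ∧
      ∑ k ∈ F, w k = 1 ∧ ‖∑ k ∈ F, w k • g k‖ < D + η := by
    intro N
    obtain ⟨_, ⟨v, ⟨F, w, a, b, c, rfl⟩, rfl⟩, hv⟩ := exists_lt_of_csInf_lt (hnon N)
      (show sInf (norm '' hilC g K N) < D + η from lt_of_le_of_lt (hdD N) (by linarith))
    exact ⟨F, w, a, b, c, hv⟩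
  choose FF ww p1 p2 p3 p4 using hblock
  let NN : ℕ → ℕ := fun i => Nat.rec n (fun _ N => max N ((FF N).sup id) + 1) i
  have hNs : ∀ i, NN (i + 1) = max (NN i) ((FF (NN i)).sup id) + 1 := fun i => rfl
  have hNmono : StrictMono NN := strictMono_nat_of_lt_succ fun i => by
    rw [hNs]
    exact Nat.lt_succ_of_le (le_max_left _ _)
  have hN0 : ∀ i, n ≤ NN i := fun i => hNmono.monotone (Nat.zero_le i)
  have hlt : ∀ i, ∀ k ∈ FF (NN i), k < NN (i + 1) := by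
    intro i k hk
    rw [hNs]
    have : k ≤ (FF (NN i)).sup id := Finset.le_sup (f := id) hk
    exact Nat.lt_succ_of_le (this.trans (le_max_right _ _))
  have hdis : ∀ i j, i < j → Disjoint (FF (NN i)) (FF (NN j)) := by
    intro i j hij
    rw [Finset.disjoint_left]
    intro k hki hkj
    have h1 := hlt i k hki
    have h2 := (p1 (NN j) k hkj).2
    have h3 : NN (i + 1) ≤ NN j := hNmono.monotone hij
    omega
  have hC : ∀ i, (∑ k ∈ FF (NN i), ww (NN i) k • g k) ∈ hilC g K n := by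
    intro i
    exact ⟨FF (NN i), ww (NN i), fun k hk => ⟨(p1 _ k hk).1, (hN0 i).trans (p1 _ k hk).2⟩,
      p2 _, p3 _, rfl⟩
  refine ⟨fun i => FF (NN i), fun i => ww (NN i), ?_, ?_, ?_, ?_, ?_⟩
  · intro i k hk
    exact (p1 _ k hk).1
  · intro i j hij
    rcases lt_or_gt_of_ne hij with h | h
    · exact hdis i j h
    · exact (hdis j i h).symm
  · intro i k
    exact p2 _ k
  · intro i _
    exact p3 _
  · intro i _ j _
    have hi := p4 (NN i)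
    have hj := p4 (NN j)
    set v1 := ∑ k ∈ FF (NN i), ww (NN i) k • g k with hv1
    set v2 := ∑ k ∈ FF (NN j), ww (NN j) k • g k with hv2
    have hmid : d n ≤ ‖(1 / 2 : ℝ) • (v1 + v2)‖ :=
      csInf_le (hbdd n) ⟨_, hil_mid g K n v1 v2 (hC i) (hC j), rfl⟩
    rw [norm_smul] at hmid
    have e12 : ‖(1 / 2 : ℝ)‖ = 1 / 2 := by norm_num
    rw [e12] at hmid
    have hpar := parallelogram_law_with_norm ℝ v1 v2
    have hn1 : ‖v1‖ ^ 2 ≤ (D + η) ^ 2 := pow_le_pow_left₀ (norm_nonneg _) hi.le 2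
    have hn2 : ‖v2‖ ^ 2 ≤ (D + η) ^ 2 := pow_le_pow_left₀ (norm_nonneg _) hj.le 2
    have hn3 : (2 * d n) ^ 2 ≤ ‖v1 + v2‖ ^ 2 :=
      pow_le_pow_left₀ (by have := hd0 n; linarith) (by linarith) 2
    have hsq : ‖v1 - v2‖ ^ 2 ≤ ε ^ 2 := by
      have h5 : ‖v1 - v2‖ ^ 2 ≤ 4 * (D + η) ^ 2 - 4 * (d n) ^ 2 := by nlinarith
      have h6 : 4 * (D + η) ^ 2 - 4 * (d n) ^ 2 = 4 * ((D + η - d n) * (D + η + d n)) := by ring
      have h7 : (D + η - d n) * (D + η + d n) ≤ (2 * η) * (2 * D + 1) := by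
        have := hdD n
        have := hd0 n
        apply mul_le_mul <;> linarith
      nlinarith
    exact (pow_le_pow_iff_left₀ (norm_nonneg _) hε.le two_ne_zero).mp hsq

end Pool.Agent.LNN

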