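import Pool.Agent.Helper547.LN.Defs
import Pool.Agent.Helper547.LN.P_hil

set_option autoImplicit false

open MeasureTheory ProbabilityTheory Filter Topology
open scoped ENNReal NNReal unitInterval

universe u v w

namespace Pool.Agent.LNN



theorem hil2_mem {Ω : Type} [MeasurableSpace Ω] (ν : Measure Ω) [IsProbabilityMeasure ν]
    (f : Ω → ℝ) (hm : AEStronglyMeasurable f ν) (B : ℝ) (hB : ∀ ω, |f ω| ≤ B) :
    MemLp f 2 ν :=
  MemLp.of_bound hm B (Eventually.of_forall fun ω => by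
    rw [Real.norm_eq_abs]
    exact hB ω)

theorem hil2_norm {Ω : Type} [MeasurableSpace Ω] (ν : Measure Ω) [IsProbabilityMeasure ν]
    (f : Ω → ℝ) (hm : MemLp f 2 ν) (B : ℝ) (hB0 : 0 ≤ B) (hB : ∀ ω, |f ω| ≤ B) :
    ‖hm.toLp f‖ ≤ B := by
  have h1 : ∀ᵐ ω ∂ν, ‖hm.toLp f ω‖ ≤ B := by
    filter_upwards [hm.coeFn_toLp] with ω hω
    rw [hω, Real.norm_eq_abs]
    exact hB ω
  have h2 := Lp.norm_le_of_ae_bound hB0 h1
  simpa [measureUnivNNReal] using h2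

theorem hil2_int {Ω : Type} [MeasurableSpace Ω] (ν : Measure Ω) [IsProbabilityMeasure ν]
    (y : Lp ℝ 2 ν) (h : Ω → ℝ) (hy : y =ᵐ[ν] h) : ∫ ω, |h ω| ∂ν ≤ ‖y‖ := by
  have h1 : ∫ ω, |h ω| ∂ν = ∫ ω, ‖y ω‖ ∂ν := by
    apply integral_congr_ae
    filter_upwards [hy] with ω hω
    rw [hω, Real.norm_eq_abs]
  have hm := Lp.aestronglyMeasurable y
  rw [h1, integral_norm_eq_lintegral_enorm hm, ← eLpNorm_one_eq_lintegral_enorm, Lp.norm_def]
  apply ENNReal.toReal_mono (Lp.eLpNorm_ne_top y)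
  exact eLpNorm_le_eLpNorm_of_exponent_le (by norm_num) hm

theorem hil2 {Ω : Type} [MeasurableSpace Ω] (ν : Measure Ω) [IsProbabilityMeasure ν]
    {κ : Type} [Fintype κ] (g : ℕ → κ → Ω → ℝ) (hm : ∀ k j, AEStronglyMeasurable (g k j) ν)
    (B : ℝ) (hB : ∀ k j ω, |g k j ω| ≤ B) (K : Set ℕ) (hK : K.Infinite) (ε : ℝ) (hε : 0 < ε) :
    ∃ (F : κ → Finset ℕ) (w : κ → ℕ → ℝ), (∀ i, ∀ k ∈ F i, k ∈ K) ∧
      (∀ i j, i ≠ j → Disjoint (F i) (F j)) ∧ (∀ i k, 0 ≤ w i k) ∧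
      (∀ i, ∑ k ∈ F i, w i k = 1) ∧
      (∀ i j l, ∫ ω, |(∑ k ∈ F i, w i k * g k l ω) - ∑ k ∈ F j, w j k * g k l ω| ∂ν ≤ ε) := by
  have hB' : ∀ k j ω, |g k j ω| ≤ |B| := fun k j ω => (hB k j ω).trans (le_abs_self B)
  have hmem : ∀ k l, MemLp (g k l) 2 ν := fun k l => hil2_mem ν (g k l) (hm k l) |B| (hB' k l)
  let G : ℕ → PiLp 2 (fun _ : κ => Lp ℝ 2 ν) :=
    fun k => WithLp.toLp 2 (fun l => (hmem k l).toLp (g k l))
  have hG : ∀ k, ‖G k‖ ≤ Real.sqrt (∑ _l : κ, |B| ^ 2) := by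
    intro k
    rw [PiLp.norm_eq_of_L2]
    apply Real.sqrt_le_sqrt
    apply Finset.sum_le_sum
    intro l _
    exact pow_le_pow_left₀ (norm_nonneg _)
      (hil2_norm ν (g k l) (hmem k l) |B| (abs_nonneg B) (hB' k l)) 2
  obtain ⟨F, w, h1, h2, h3, h4, h5⟩ := hil G (Real.sqrt (∑ _l : κ, |B| ^ 2)) hG K hK
    (Fintype.card κ) ε hε
  have hsum : ∀ (s : Finset ℕ) (v : ℕ → ℝ) (l : κ),
      ((∑ k ∈ s, v k • G k) l : Lp ℝ 2 ν) =ᵐ[ν] fun ω => ∑ k ∈ s, v k * g k l ω := by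
    classical
    intro s v l
    induction s using Finset.induction_on with
    | empty =>
      simp only [Finset.sum_empty]
      exact Lp.coeFn_zero _ _ _
    | insert a s ha ih =>
      rw [Finset.sum_insert ha, PiLp.add_apply, PiLp.smul_apply]
      have e1 := Lp.coeFn_add (v a • G a l) ((∑ k ∈ s, v k • G k) l)
      have e2 := Lp.coeFn_smul (v a) (G a l)
      have e3 : (G a l : Lp ℝ 2 ν) =ᵐ[ν] g a l := (hmem a l).coeFn_toLp
      filter_upwards [e1, e2, e3, ih] with ω g1 g2 g3 g4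
      rw [g1, Pi.add_apply, g2, Pi.smul_apply, g3, g4, Finset.sum_insert ha, smul_eq_mul]
  refine ⟨fun i => F (Fintype.equivFin κ i), fun i => w (Fintype.equivFin κ i),
    fun i => h1 _, fun i j hij => h2 _ _ ?_, fun i => h3 _, fun i => h4 _ (Fin.isLt _), ?_⟩
  · intro hc
    exact hij ((Fintype.equivFin κ).injective (Fin.ext hc))
  · intro i j l
    set x : PiLp 2 (fun _ : κ => Lp ℝ 2 ν) :=
      (∑ k ∈ F (Fintype.equivFin κ i), w (Fintype.equivFin κ i) k • G k) -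
        ∑ k ∈ F (Fintype.equivFin κ j), w (Fintype.equivFin κ j) k • G k with hx
    have hxε : ‖x‖ ≤ ε := h5 _ (Fin.isLt _) _ (Fin.isLt _)
    refine (hil2_int ν (x l) _ ?_).trans ((PiLp.norm_apply_le x l).trans hxε)
    rw [hx, PiLp.sub_apply]
    have e1 := Lp.coeFn_sub
      ((∑ k ∈ F (Fintype.equivFin κ i), w (Fintype.equivFin κ i) k • G k) l)
      ((∑ k ∈ F (Fintype.equivFin κ j), w (Fintype.equivFin κ j) k • G k) l)
    filter_upwards [e1, hsum (F (Fintype.equivFin κ i)) (w (Fintype.equivFin κ i)) l,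
      hsum (F (Fintype.equivFin κ j)) (w (Fintype.equivFin κ j)) l] with ω g1 g2 g3
    rw [g1, Pi.sub_apply, g2, g3]

end Pool.Agent.LNN
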