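import Pool.Agent.Helper547.LN.Defs

set_option autoImplicit false

open MeasureTheory ProbabilityTheory Filter Topology
open scoped ENNReal NNReal unitInterval

universe u v w

namespace Pool.Agent.LNN



theorem keycmp_int {Ω : Type} [MeasurableSpace Ω] (ν : Measure Ω) [IsProbabilityMeasure ν]
    (f : Ω → ℝ) (hf : Integrable f ν) (h0 : ∀ ω, 0 ≤ f ω) : Integrable (fun ω => √(f ω)) ν := by
  refine Integrable.mono' (g := fun ω => 1 + f ω) ((integrable_const 1).add hf)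
    (Real.continuous_sqrt.comp_aestronglyMeasurable hf.aestronglyMeasurable) ?_
  filter_upwards with ω
  rw [Real.norm_eq_abs, abs_of_nonneg (Real.sqrt_nonneg _)]
  have h1 := Real.sq_sqrt (h0 ω)
  have h2 := Real.sqrt_nonneg (f ω)
  nlinarith [sq_nonneg (√(f ω) - 1)]

theorem keycmp {Ω : Type} [MeasurableSpace Ω] (ν : Measure Ω) [IsProbabilityMeasure ν]
    {κ : Type} [Fintype κ] (G G' : κ → Ω → ℝ) (hG : ∀ j, Integrable (G j) ν)
    (hG' : ∀ j, Integrable (G' j) ν) (h0 : ∀ j ω, 0 ≤ G j ω) (h0' : ∀ j ω, 0 ≤ G' j ω)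
    (ε : ℝ) (hε : 0 < ε) (h : ∀ j, ∫ ω, |G j ω - G' j ω| ∂ν ≤ ε) :
    ∫ ω, √(∑ j, G j ω) ∂ν ≤ ∫ ω, √(∑ j, G' j ω) ∂ν + √(Fintype.card κ * ε) := by
  rcases isEmpty_or_nonempty κ with hκ | hκ
  · simp
  have hcard : (0 : ℝ) < Fintype.card κ := by exact_mod_cast Fintype.card_pos
  have hc : 0 < (Fintype.card κ : ℝ) * ε := mul_pos hcard hε
  have iA : Integrable (fun ω => ∑ j, G j ω) ν := integrable_finset_sum _ fun j _ => hG j
  have iB : Integrable (fun ω => ∑ j, G' j ω) ν := integrable_finset_sum _ fun j _ => hG' j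
  have iH : Integrable (fun ω => |∑ j, G j ω - ∑ j, G' j ω|) ν := (iA.sub iB).abs
  have sA := keycmp_int ν _ iA (fun ω => Finset.sum_nonneg fun j _ => h0 j ω)
  have sB := keycmp_int ν _ iB (fun ω => Finset.sum_nonneg fun j _ => h0' j ω)
  have sH := keycmp_int ν _ iH (fun ω => abs_nonneg _)
  have hI : ∫ ω, |∑ j, G j ω - ∑ j, G' j ω| ∂ν ≤ (Fintype.card κ : ℝ) * ε := by
    calc ∫ ω, |∑ j, G j ω - ∑ j, G' j ω| ∂ν ≤ ∫ ω, ∑ j, |G j ω - G' j ω| ∂ν := by
          apply integral_mono iH (integrable_finset_sum _ fun j _ => ((hG j).sub (hG' j)).abs)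
          intro ω
          simp only
          rw [← Finset.sum_sub_distrib]
          exact Finset.abs_sum_le_sum_abs _ _
      _ = ∑ j, ∫ ω, |G j ω - G' j ω| ∂ν :=
          integral_finset_sum _ fun j _ => ((hG j).sub (hG' j)).abs
      _ ≤ ∑ j : κ, ε := Finset.sum_le_sum fun j _ => h j
      _ = (Fintype.card κ : ℝ) * ε := by simp
  have hsq : 0 < √((Fintype.card κ : ℝ) * ε) := Real.sqrt_pos.mpr hc
  have hJ : ∫ ω, √(|∑ j, G j ω - ∑ j, G' j ω|) ∂ν ≤ √((Fintype.card κ : ℝ) * ε) := by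
    set r := √((Fintype.card κ : ℝ) * ε) with hr
    have hr2 : r ^ 2 = (Fintype.card κ : ℝ) * ε := Real.sq_sqrt hc.le
    calc ∫ ω, √(|∑ j, G j ω - ∑ j, G' j ω|) ∂ν
        ≤ ∫ ω, ((1 / (2 * r)) * |∑ j, G j ω - ∑ j, G' j ω| + r / 2) ∂ν := by
          apply integral_mono sH ((iH.const_mul _).add (integrable_const _))
          intro ω
          change √(|∑ j, G j ω - ∑ j, G' j ω|) ≤ (1 / (2 * r)) * |∑ j, G j ω - ∑ j, G' j ω| + r / 2
          set q := |∑ j, G j ω - ∑ j, G' j ω| with hq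
          have hq0 : 0 ≤ q := abs_nonneg _
          have h1 := Real.sq_sqrt hq0
          have h3 : (1 / (2 * r)) * q + r / 2 = (q + r ^ 2) / (2 * r) := by field_simp
          rw [h3, le_div_iff₀ (by positivity)]
          nlinarith [sq_nonneg (√q - r)]
      _ = (1 / (2 * r)) * ∫ ω, |∑ j, G j ω - ∑ j, G' j ω| ∂ν + r / 2 := by
          rw [integral_add (iH.const_mul _) (integrable_const _), integral_const_mul]
          simp
      _ ≤ (1 / (2 * r)) * r ^ 2 + r / 2 := by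
          rw [hr2]
          gcongr
      _ = r := by field_simp; ring
  calc ∫ ω, √(∑ j, G j ω) ∂ν ≤ ∫ ω, (√(∑ j, G' j ω) + √(|∑ j, G j ω - ∑ j, G' j ω|)) ∂ν := by
        apply integral_mono sA (sB.add sH)
        intro ω
        change √(∑ j, G j ω) ≤ √(∑ j, G' j ω) + √(|∑ j, G j ω - ∑ j, G' j ω|)
        have hB : 0 ≤ ∑ j, G' j ω := Finset.sum_nonneg fun j _ => h0' j ω
        have hq : 0 ≤ |∑ j, G j ω - ∑ j, G' j ω| := abs_nonneg _
        rw [Real.sqrt_le_iff]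
        refine ⟨by positivity, ?_⟩
        have h1 := Real.sq_sqrt hB
        have h2 := Real.sq_sqrt hq
        have h3 : 0 ≤ √(∑ j, G' j ω) * √(|∑ j, G j ω - ∑ j, G' j ω|) := by positivity
        have h4 := le_abs_self (∑ j, G j ω - ∑ j, G' j ω)
        nlinarith
    _ = ∫ ω, √(∑ j, G' j ω) ∂ν + ∫ ω, √(|∑ j, G j ω - ∑ j, G' j ω|) ∂ν :=
        integral_add sB sH
    _ ≤ _ := by
        gcongr

end Pool.Agent.LNN
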