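import Pool.Agent.Helper547.LN.Defs

set_option autoImplicit false

open MeasureTheory ProbabilityTheory Filter Topology
open scoped ENNReal NNReal unitInterval

universe u v w

namespace Pool.Agent.LNN



theorem keylow_meas {Ω : Type} [MeasurableSpace Ω] (ν : Measure Ω)
    {κ : Type} [Fintype κ] (b : ℕ → κ → Ω → ℝ) (hb : ∀ k j, Integrable (b k j) ν)
    (R : ℝ) (k : ℕ) (j : κ) :
    AEStronglyMeasurable (fun ω => min ((b k j ω) ^ 2) (R ^ 2)) ν := by
  have h1 : AEStronglyMeasurable (fun ω => (b k j ω) ^ 2) ν := ((hb k j).1).pow 2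
  exact h1.inf aestronglyMeasurable_const

theorem keylow_ptw {κ : Type} [Fintype κ] (b : κ → ℝ) (f R : ℝ) (hR : 0 < R) (hf0 : 0 ≤ f)
    (h : f ^ 2 ≤ ∑ j, b j ^ 2) : min f R ≤ √(∑ j, min (b j ^ 2) (R ^ 2)) := by
  have hm : 0 ≤ min f R := le_min hf0 hR.le
  have hm1 : (min f R) ^ 2 ≤ f ^ 2 := pow_le_pow_left₀ hm (min_le_left _ _) 2
  have hm2 : (min f R) ^ 2 ≤ R ^ 2 := pow_le_pow_left₀ hm (min_le_right _ _) 2
  apply Real.le_sqrt_of_sq_le
  by_cases hall : ∀ j, b j ^ 2 ≤ R ^ 2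
  · have : ∑ j, min (b j ^ 2) (R ^ 2) = ∑ j, b j ^ 2 :=
      Finset.sum_congr rfl fun j _ => min_eq_left (hall j)
    rw [this]
    exact hm1.trans h
  · push Not at hall
    obtain ⟨j, hj⟩ := hall
    have h2 : min (b j ^ 2) (R ^ 2) ≤ ∑ j, min (b j ^ 2) (R ^ 2) :=
      Finset.single_le_sum (f := fun j => min (b j ^ 2) (R ^ 2))
        (fun i _ => le_min (sq_nonneg _) (sq_nonneg _)) (Finset.mem_univ j)
    rw [min_eq_right hj.le] at h2
    exact hm2.trans h2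

theorem keylow {Ω : Type} [MeasurableSpace Ω] (ν : Measure Ω) [IsProbabilityMeasure ν]
    {κ : Type} [Fintype κ] (b : ℕ → κ → Ω → ℝ) (hb : ∀ k j, Integrable (b k j) ν)
    (f : ℕ → Ω → ℝ) (hf : ∀ k, Integrable (f k) ν) (hf0 : ∀ k ω, 0 ≤ f k ω)
    (hfb : ∀ k, ∀ᵐ ω ∂ν, (f k ω) ^ 2 ≤ ∑ j, (b k j ω) ^ 2) (R : ℝ) (hR : 0 < R)
    (F : Finset ℕ) (w : ℕ → ℝ) (hw : ∀ k, 0 ≤ w k) (hw1 : ∑ k ∈ F, w k = 1) (a : ℝ)
    (ha : ∀ k ∈ F, a ≤ ∫ ω, min (f k ω) R ∂ν) :
    a ≤ ∫ ω, √(∑ j, ∑ k ∈ F, w k * min ((b k j ω) ^ 2) (R ^ 2)) ∂ν := by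
  have hu0 : ∀ k ω, 0 ≤ ∑ j, min ((b k j ω) ^ 2) (R ^ 2) := fun k ω =>
    Finset.sum_nonneg fun j _ => le_min (sq_nonneg _) (sq_nonneg _)
  have humeas : ∀ k, AEStronglyMeasurable (fun ω => ∑ j, min ((b k j ω) ^ 2) (R ^ 2)) ν := by
    intro k
    exact Finset.aestronglyMeasurable_fun_sum _ fun j _ => keylow_meas ν b hb R k j
  have huint : ∀ k, Integrable (fun ω => √(∑ j, min ((b k j ω) ^ 2) (R ^ 2))) ν := by
    intro k
    refine Integrable.of_bound (Real.continuous_sqrt.comp_aestronglyMeasurable (humeas k))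
      (√(∑ _j : κ, R ^ 2)) (Filter.Eventually.of_forall fun ω => ?_)
    rw [Real.norm_of_nonneg (Real.sqrt_nonneg _)]
    exact Real.sqrt_le_sqrt (Finset.sum_le_sum fun j _ => min_le_right _ _)
  have hlast : Integrable (fun ω => √(∑ j, ∑ k ∈ F, w k * min ((b k j ω) ^ 2) (R ^ 2))) ν := by
    have hme : AEStronglyMeasurable
        (fun ω => ∑ j, ∑ k ∈ F, w k * min ((b k j ω) ^ 2) (R ^ 2)) ν := by
      refine Finset.aestronglyMeasurable_fun_sum _ fun j _ => ?_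
      refine Finset.aestronglyMeasurable_fun_sum _ fun k _ => ?_
      exact (keylow_meas ν b hb R k j).const_mul (w k)
    refine Integrable.of_bound (Real.continuous_sqrt.comp_aestronglyMeasurable hme)
      (√(∑ _j : κ, ∑ k ∈ F, w k * R ^ 2)) (Filter.Eventually.of_forall fun ω => ?_)
    rw [Real.norm_of_nonneg (Real.sqrt_nonneg _)]
    exact Real.sqrt_le_sqrt (Finset.sum_le_sum fun j _ => Finset.sum_le_sum fun k _ =>
      mul_le_mul_of_nonneg_left (min_le_right _ _) (hw k))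
  have hstep : ∀ k, ∫ ω, min (f k ω) R ∂ν ≤ ∫ ω, √(∑ j, min ((b k j ω) ^ 2) (R ^ 2)) ∂ν := by
    intro k
    refine integral_mono_ae ((hf k).inf (integrable_const R)) (huint k) ?_
    filter_upwards [hfb k] with ω hω
    exact keylow_ptw (fun j => b k j ω) (f k ω) R hR (hf0 k ω) hω
  calc a = ∑ k ∈ F, w k * a := by rw [← Finset.sum_mul, hw1, one_mul]
    _ ≤ ∑ k ∈ F, w k * ∫ ω, √(∑ j, min ((b k j ω) ^ 2) (R ^ 2)) ∂ν :=
        Finset.sum_le_sum fun k hk =>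
          mul_le_mul_of_nonneg_left ((ha k hk).trans (hstep k)) (hw k)
    _ = ∫ ω, ∑ k ∈ F, w k * √(∑ j, min ((b k j ω) ^ 2) (R ^ 2)) ∂ν := by
        rw [integral_finsetSum _ (fun k _ => (huint k).const_mul (w k))]
        exact Finset.sum_congr rfl fun k _ => (integral_const_mul _ _).symm
    _ ≤ ∫ ω, √(∑ j, ∑ k ∈ F, w k * min ((b k j ω) ^ 2) (R ^ 2)) ∂ν := by
        refine integral_mono (integrable_finsetSum _ fun k _ => (huint k).const_mul (w k))
          hlast fun ω => ?_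
        show ∑ k ∈ F, w k * √(∑ j, min ((b k j ω) ^ 2) (R ^ 2)) ≤
          √(∑ j, ∑ k ∈ F, w k * min ((b k j ω) ^ 2) (R ^ 2))
        apply Real.le_sqrt_of_sq_le
        have hcs := Finset.sum_sq_le_sum_mul_sum_of_sq_eq_mul F
          (r := fun k => w k * √(∑ j, min ((b k j ω) ^ 2) (R ^ 2)))
          (f := w) (g := fun k => w k * ∑ j, min ((b k j ω) ^ 2) (R ^ 2))
          (fun k _ => hw k) (fun k _ => mul_nonneg (hw k) (hu0 k ω))
          (fun k _ => by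
            show (w k * √(∑ j, min ((b k j ω) ^ 2) (R ^ 2))) ^ 2 = _
            rw [mul_pow, Real.sq_sqrt (hu0 k ω)]
            ring)
        rw [hw1, one_mul] at hcs
        refine hcs.trans (le_of_eq ?_)
        rw [Finset.sum_comm]
        exact Finset.sum_congr rfl fun k _ => Finset.mul_sum _ _ _

end Pool.Agent.LNN
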