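import Pool.Agent.Helper547.LN.Defs

set_option autoImplicit false

open MeasureTheory ProbabilityTheory Filter Topology
open scoped ENNReal NNReal unitInterval

universe u v w

namespace Pool.Agent.LNN



theorem keyup_sqrt_sum (U : Finset ℕ) (f : ℕ → ℝ) (hf : ∀ k, 0 ≤ f k) :
    √(∑ k ∈ U, f k) ≤ ∑ k ∈ U, √(f k) := by
  classical
  induction U using Finset.induction_on with
  | empty => simp
  | insert a U ha ih =>
    rw [Finset.sum_insert ha, Finset.sum_insert ha]
    have h1 : 0 ≤ ∑ k ∈ U, f k := Finset.sum_nonneg (fun k _ => hf k)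
    have h2 : √(f a + ∑ k ∈ U, f k) ≤ √(f a) + √(∑ k ∈ U, f k) := by
      rw [Real.sqrt_le_left (by positivity)]
      nlinarith [Real.sq_sqrt (hf a), Real.sq_sqrt h1, Real.sqrt_nonneg (f a), Real.sqrt_nonneg (∑ k ∈ U, f k), mul_nonneg (Real.sqrt_nonneg (f a)) (Real.sqrt_nonneg (∑ k ∈ U, f k))]
    linarith

theorem keyup {Ω : Type} [MeasurableSpace Ω] (ν : Measure Ω) [IsProbabilityMeasure ν]
    {κ : Type} [Fintype κ] (b : ℕ → κ → Ω → ℝ) (hb : ∀ k j, Integrable (b k j) ν)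
    (β : κ → ℝ) (C : ℝ) (hC : 0 ≤ C)
    (hup : ∀ (F : Finset ℕ) (j : ℕ → κ) (s : ℕ → ℝ), (∀ k, 0 ≤ s k) →
      ∫ ω, √(∑ k ∈ F, s k * (b k (j k) ω) ^ 2) ∂ν ≤ C * √(∑ k ∈ F, s k * (β (j k)) ^ 2))
    (R : ℝ) (hR : 0 < R) (F : κ → Finset ℕ) (w : κ → ℕ → ℝ)
    (hd : ∀ i j, i ≠ j → Disjoint (F i) (F j)) (hw : ∀ i k, 0 ≤ w i k)
    (hw1 : ∀ i, ∑ k ∈ F i, w i k = 1) :
    ∫ ω, √(∑ j, ∑ k ∈ F j, w j k * min ((b k j ω) ^ 2) (R ^ 2)) ∂ν ≤
      C * √(∑ j, (β j) ^ 2) := by

  classical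
  rcases isEmpty_or_nonempty κ with hκ | hκ
  · simp
  · let U : Finset ℕ := Finset.univ.biUnion F
    let jj : ℕ → κ := fun k => if h : ∃ i, k ∈ F i then h.choose else Classical.arbitrary κ
    have hjj : ∀ i, ∀ k ∈ F i, jj k = i := by
      intro i k hk
      have hex : ∃ i, k ∈ F i := ⟨i, hk⟩
      have h1 : jj k = hex.choose := by simp only [jj, dif_pos hex]
      rw [h1]
      by_contra hne
      exact Finset.disjoint_left.1 (hd _ _ hne) hex.choose_spec hk
    have hsum : ∀ G : κ → ℕ → ℝ, ∑ i, ∑ k ∈ F i, G i k = ∑ k ∈ U, G (jj k) k := by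
      intro G
      rw [Finset.sum_biUnion (fun i _ j _ hij => hd i j hij)]
      refine Finset.sum_congr rfl (fun i _ => Finset.sum_congr rfl (fun k hk => ?_))
      rw [hjj i k hk]
    have hs0 : ∀ k, 0 ≤ w (jj k) k := fun k => hw _ _
    have hkey := hup U jj (fun k => w (jj k) k) hs0
    have hβ : ∑ k ∈ U, w (jj k) k * (β (jj k)) ^ 2 = ∑ j, (β j) ^ 2 := by
      rw [← hsum (fun i k => w i k * (β i) ^ 2)]
      refine Finset.sum_congr rfl (fun i _ => ?_)
      rw [← Finset.sum_mul, hw1, one_mul]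
    rw [hβ] at hkey
    refine le_trans ?_ hkey
    have hgi : Integrable (fun ω => √(∑ k ∈ U, w (jj k) k * (b k (jj k) ω) ^ 2)) ν := by
      have hdom : Integrable (fun ω => ∑ k ∈ U, √(w (jj k) k) * |b k (jj k) ω|) ν := by
        apply integrable_finset_sum
        intro k _
        exact ((hb k (jj k)).abs).const_mul _
      refine hdom.mono' ?_ (Filter.Eventually.of_forall (fun ω => ?_))
      · apply Real.continuous_sqrt.comp_aestronglyMeasurable
        apply Finset.aestronglyMeasurable_fun_sum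
        intro k _
        exact ((hb k (jj k)).aestronglyMeasurable.pow 2).const_mul _
      · rw [Real.norm_of_nonneg (Real.sqrt_nonneg _)]
        refine (keyup_sqrt_sum U (fun k => w (jj k) k * (b k (jj k) ω) ^ 2) (fun k => mul_nonneg (hs0 k) (sq_nonneg _))).trans ?_
        refine Finset.sum_le_sum (fun k _ => ?_)
        rw [Real.sqrt_mul (hs0 k), Real.sqrt_sq_eq_abs]
    refine integral_mono_of_nonneg (Filter.Eventually.of_forall (fun ω => Real.sqrt_nonneg _)) hgi
      (Filter.Eventually.of_forall (fun ω => ?_))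
    apply Real.sqrt_le_sqrt
    rw [← hsum (fun i k => w i k * (b k i ω) ^ 2)]
    refine Finset.sum_le_sum (fun i _ => Finset.sum_le_sum (fun k _ => ?_))
    exact mul_le_mul_of_nonneg_left (min_le_left _ _) (hw i k)

end Pool.Agent.LNN
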