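import Pool.Agent.Helper547.LN.Defs

set_option autoImplicit false

open MeasureTheory ProbabilityTheory Filter Topology
open scoped ENNReal NNReal unitInterval

universe u v w

namespace Pool.Agent.LNN



theorem ui_trunc {Ω : Type} [MeasurableSpace Ω] (ν : Measure Ω) [IsProbabilityMeasure ν]
    (G : Ω → ℝ) (hG : Integrable G ν) (h0 : ∀ ω, 0 ≤ G ω) (ε : ℝ) (hε : 0 < ε) :
    ∃ R : ℝ, 0 < R ∧ ∫ ω, (G ω - min (G ω) R) ∂ν ≤ ε := by
  have h1 : Tendsto (fun n : ℕ => ∫ ω, (G ω - min (G ω) (n : ℝ)) ∂ν) atTop (𝓝 (∫ _ω : Ω, (0:ℝ) ∂ν)) := by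
    refine tendsto_integral_of_dominated_convergence G ?_ hG ?_ ?_
    · intro n
      exact (hG.sub (hG.inf (integrable_const (n : ℝ)))).aestronglyMeasurable
    · intro n
      refine Eventually.of_forall fun ω => ?_
      have h2 : 0 ≤ min (G ω) (n : ℝ) := le_min (h0 ω) (Nat.cast_nonneg n)
      have h3 : min (G ω) (n : ℝ) ≤ G ω := min_le_left _ _
      rw [Real.norm_eq_abs, abs_of_nonneg (by linarith)]
      linarith
    · refine Eventually.of_forall fun ω => ?_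
      refine tendsto_const_nhds.congr' ?_
      obtain ⟨N, hN⟩ := exists_nat_ge (G ω)
      filter_upwards [eventually_ge_atTop N] with n hn
      have : G ω ≤ (n : ℝ) := hN.trans (by exact_mod_cast hn)
      rw [min_eq_left this, sub_self]
  rw [integral_zero] at h1
  have h2 := (h1.eventually (gt_mem_nhds hε)).and (eventually_gt_atTop 0)
  obtain ⟨n, hn1, hn2⟩ := h2.exists
  exact ⟨n, by exact_mod_cast hn2, hn1.le⟩

theorem ui_step {Ω : Type} [MeasurableSpace Ω] (ν : Measure Ω) [IsProbabilityMeasure ν]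
    (f : ℕ → Ω → ℝ) (hf : ∀ k, Integrable (f k) ν) (h0 : ∀ k ω, 0 ≤ f k ω)
    (δ : ℝ) (hδ : 0 < δ)
    (hfin : ∀ R : ℝ, 0 < R → {k : ℕ | ∫ ω, (f k ω - min (f k ω) R) ∂ν ≤ δ}.Finite) (m : ℕ) :
    ∃ F : Finset ℕ, F.card = m ∧ ∃ G : Ω → ℝ, Integrable G ν ∧ (∀ ω, 0 ≤ G ω) ∧
      (∀ ω, G ω ≤ √(∑ k ∈ F, (f k ω) ^ 2)) ∧ m * (δ / 2) ≤ ∫ ω, G ω ∂ν := by
  induction m with
  | zero =>
    refine ⟨∅, rfl, fun _ => 0, integrable_zero _ _ _, fun _ => le_refl _, fun ω => by simp, ?_⟩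
    simp
  | succ m ih =>
    obtain ⟨F, hF, G, hG, hG0, hGF, hGi⟩ := ih
    obtain ⟨R, hR, hRG⟩ := ui_trunc ν G hG hG0 (δ / 2) (half_pos hδ)
    obtain ⟨k, hk⟩ := ((hfin R hR).union F.finite_toSet).exists_notMem
    rw [Set.mem_union, not_or] at hk
    obtain ⟨hk1, hk2⟩ := hk
    have hk1' : δ < ∫ ω, (f k ω - min (f k ω) R) ∂ν := by
      by_contra hc
      exact hk1 (not_lt.1 hc)
    have hk2' : k ∉ F := fun hc => hk2 hc
    have hI : Integrable (fun ω => max (f k ω) (G ω)) ν := (hf k).sup hG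
    refine ⟨insert k F, by rw [Finset.card_insert_of_notMem hk2', hF],
      fun ω => max (f k ω) (G ω), hI, fun ω => (hG0 ω).trans (le_max_right _ _), ?_, ?_⟩
    · intro ω
      rw [Finset.sum_insert hk2']
      apply max_le
      · apply Real.le_sqrt_of_sq_le
        have : 0 ≤ ∑ x ∈ F, f x ω ^ 2 := Finset.sum_nonneg fun i _ => sq_nonneg _
        linarith
      · refine (hGF ω).trans (Real.sqrt_le_sqrt ?_)
        have := sq_nonneg (f k ω)
        linarith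
    · have i1 : Integrable (fun ω => f k ω - min (f k ω) R) ν :=
        (hf k).sub ((hf k).inf (integrable_const R))
      have i2 : Integrable (fun ω => G ω - min (G ω) R) ν :=
        hG.sub (hG.inf (integrable_const R))
      have h1 : ∫ ω, (G ω + (f k ω - min (f k ω) R) - (G ω - min (G ω) R)) ∂ν ≤
          ∫ ω, max (f k ω) (G ω) ∂ν := by
        refine integral_mono ((hG.add i1).sub i2) hI fun ω => ?_
        show G ω + (f k ω - min (f k ω) R) - (G ω - min (G ω) R) ≤ max (f k ω) (G ω)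
        rcases le_total (f k ω) R with h2 | h2
        · rw [min_eq_left h2]
          have h3 : min (G ω) R ≤ G ω := min_le_left _ _
          have h4 : G ω ≤ max (f k ω) (G ω) := le_max_right _ _
          linarith
        · rw [min_eq_right h2]
          have h3 : min (G ω) R ≤ R := min_le_right _ _
          have h4 : f k ω ≤ max (f k ω) (G ω) := le_max_left _ _
          linarith
      have h2 : ∫ ω, (G ω + (f k ω - min (f k ω) R) - (G ω - min (G ω) R)) ∂ν =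
          ∫ ω, G ω ∂ν + ∫ ω, (f k ω - min (f k ω) R) ∂ν - ∫ ω, (G ω - min (G ω) R) ∂ν := by
        have e1 := integral_sub (hG.add i1) i2
        have e2 := integral_add hG i1
        calc _ = _ := e1
          _ = _ := by
            congr 1
      rw [h2] at h1
      push_cast
      linarith

theorem ui_sq (F : Finset ℕ) (g : ℕ → ℝ) (h0 : ∀ k, 0 ≤ g k) :
    ∑ k ∈ F, g k ^ 2 ≤ (∑ k ∈ F, g k) ^ 2 := by
  classical
  induction F using Finset.induction_on with
  | empty => simp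
  | insert a s ha ih =>
    rw [Finset.sum_insert ha, Finset.sum_insert ha]
    have h1 : 0 ≤ ∑ k ∈ s, g k := Finset.sum_nonneg fun k _ => h0 k
    have h2 := mul_nonneg (h0 a) h1
    nlinarith

theorem ui_sqrt {Ω : Type} [MeasurableSpace Ω] (ν : Measure Ω) [IsProbabilityMeasure ν]
    (f : ℕ → Ω → ℝ) (hf : ∀ k, Integrable (f k) ν) (h0 : ∀ k ω, 0 ≤ f k ω) (F : Finset ℕ) :
    Integrable (fun ω => √(∑ k ∈ F, (f k ω) ^ 2)) ν := by
  have h1 : Integrable (fun ω => ∑ k ∈ F, f k ω) ν := integrable_finsetSum _ fun k _ => hf k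
  refine h1.mono' ?_ ?_
  · refine Real.continuous_sqrt.comp_aestronglyMeasurable ?_
    refine Finset.aestronglyMeasurable_fun_sum F fun k _ => ?_
    exact (hf k).aestronglyMeasurable.pow 2
  · refine Eventually.of_forall fun ω => ?_
    rw [Real.norm_eq_abs, abs_of_nonneg (Real.sqrt_nonneg _)]
    refine Real.sqrt_le_iff.2 ⟨Finset.sum_nonneg fun k _ => h0 k ω, ?_⟩
    exact ui_sq F (fun k => f k ω) fun k => h0 k ω

theorem ui {Ω : Type} [MeasurableSpace Ω] (ν : Measure Ω) [IsProbabilityMeasure ν]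
    (f : ℕ → Ω → ℝ) (hf : ∀ k, Integrable (f k) ν) (h0 : ∀ k ω, 0 ≤ f k ω) (D : ℝ)
    (hD : ∀ F : Finset ℕ, ∫ ω, √(∑ k ∈ F, (f k ω) ^ 2) ∂ν ≤ D * √(F.card : ℝ))
    (δ : ℝ) (hδ : 0 < δ) :
    ∃ R : ℝ, 0 < R ∧ {k : ℕ | ∫ ω, (f k ω - min (f k ω) R) ∂ν ≤ δ}.Infinite := by
  by_contra hcon
  have hfin : ∀ R : ℝ, 0 < R → {k : ℕ | ∫ ω, (f k ω - min (f k ω) R) ∂ν ≤ δ}.Finite := by
    intro R hR
    by_contra hc
    exact hcon ⟨R, hR, hc⟩
  obtain ⟨n, hn⟩ := exists_nat_gt (max (2 * D / δ) 0)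
  have hn0 : (0 : ℝ) < n := (le_max_right _ _).trans_lt hn
  have hn1 : 2 * D / δ < n := (le_max_left _ _).trans_lt hn
  obtain ⟨F, hF, G, hG, hG0, hGF, hGi⟩ := ui_step ν f hf h0 δ hδ hfin (n ^ 2)
  have h1 : ∫ ω, G ω ∂ν ≤ ∫ ω, √(∑ k ∈ F, (f k ω) ^ 2) ∂ν :=
    integral_mono hG (ui_sqrt ν f hf h0 F) hGF
  have h2 := hD F
  rw [hF] at h2
  push_cast at h2 hGi
  rw [Real.sqrt_sq hn0.le] at h2
  have h3 : (n : ℝ) * (n * (δ / 2)) ≤ n * D := by nlinarith
  have h4 : (n : ℝ) * (δ / 2) ≤ D := le_of_mul_le_mul_left h3 hn0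
  rw [div_lt_iff₀ hδ] at hn1
  linarith

end Pool.Agent.LNN
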