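import Pool.Agent.Helper547.LN.Defs
import Pool.Agent.Helper547.LN.P_ui
import Pool.Agent.Helper547.LN.P_hil2
import Pool.Agent.Helper547.LN.P_keylow
import Pool.Agent.Helper547.LN.P_keyup
import Pool.Agent.Helper547.LN.P_keycmp

set_option autoImplicit false

open MeasureTheory ProbabilityTheory Filter Topology
open scoped ENNReal NNReal unitInterval

universe u v w

namespace Pool.Agent.LNN



theorem key {Ω : Type} [MeasurableSpace Ω] (ν : Measure Ω) [IsProbabilityMeasure ν]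
    {κ : Type} [Fintype κ] (b : ℕ → κ → Ω → ℝ) (hb : ∀ k j, Integrable (b k j) ν)
    (f : ℕ → Ω → ℝ) (hf : ∀ k, Integrable (f k) ν) (hf0 : ∀ k ω, 0 ≤ f k ω)
    (hfb : ∀ k, ∀ᵐ ω ∂ν, (f k ω) ^ 2 ≤ ∑ j, (b k j ω) ^ 2)
    (β : κ → ℝ) (C : ℝ) (hC : 0 ≤ C)
    (hup : ∀ (F : Finset ℕ) (j : ℕ → κ) (s : ℕ → ℝ), (∀ k, 0 ≤ s k) →
      ∫ ω, √(∑ k ∈ F, s k * (b k (j k) ω) ^ 2) ∂ν ≤ C * √(∑ k ∈ F, s k * (β (j k)) ^ 2))
    (α : ℝ) (hα : ∀ k, α ≤ ∫ ω, f k ω ∂ν) (D : ℝ)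
    (hD : ∀ F : Finset ℕ, ∫ ω, √(∑ k ∈ F, (f k ω) ^ 2) ∂ν ≤ D * √(F.card : ℝ)) :
    α ≤ 2 * C * √(∑ j, (β j) ^ 2) := by
  classical
  have hrhs : 0 ≤ C * √(∑ j, (β j) ^ 2) := mul_nonneg hC (Real.sqrt_nonneg _)
  rcases le_or_gt α 0 with hα0 | hα0
  · linarith
  rcases isEmpty_or_nonempty κ with hκ | hκ
  · exfalso
    have h1 := hα 0
    have h2 : ∫ ω, f 0 ω ∂ν = 0 := by
      apply integral_eq_zero_of_ae
      filter_upwards [hfb 0] with ω hω
      have h3 : (f 0 ω) ^ 2 ≤ 0 := by simpa using hω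
      have h4 : f 0 ω = 0 := by nlinarith [sq_nonneg (f 0 ω), hf0 0 ω]
      simpa using h4
    linarith
  obtain ⟨R, hR, hK⟩ := ui ν f hf hf0 D hD (α / 2) (by linarith)
  set K : Set ℕ := {k : ℕ | ∫ ω, (f k ω - min (f k ω) R) ∂ν ≤ α / 2} with hKdef
  have hKlow : ∀ k ∈ K, α / 2 ≤ ∫ ω, min (f k ω) R ∂ν := by
    intro k hk
    have h1 : ∫ ω, (f k ω - min (f k ω) R) ∂ν ≤ α / 2 := hk
    have hmin : Integrable (fun ω => min (f k ω) R) ν := (hf k).inf (integrable_const R)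
    rw [integral_sub (hf k) hmin] at h1
    have := hα k
    linarith
  let g : ℕ → κ → Ω → ℝ := fun k j ω => min ((b k j ω) ^ 2) (R ^ 2)
  have hgm : ∀ k j, AEStronglyMeasurable (g k j) ν := fun k j =>
    ((hb k j).aestronglyMeasurable.pow 2).inf aestronglyMeasurable_const
  have hg0 : ∀ k j ω, 0 ≤ g k j ω := fun k j ω => le_min (sq_nonneg _) (sq_nonneg _)
  have hgB : ∀ k j ω, |g k j ω| ≤ R ^ 2 := fun k j ω => by
    rw [abs_of_nonneg (hg0 k j ω)]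
    exact min_le_right _ _
  have hgi : ∀ k j, Integrable (g k j) ν := fun k j =>
    Integrable.of_bound (hgm k j) (R ^ 2) (Filter.Eventually.of_forall (fun ω => by
      rw [Real.norm_eq_abs]; exact hgB k j ω))
  obtain ⟨i0⟩ := hκ
  haveI : Nonempty κ := ⟨i0⟩
  have hcard : (0 : ℝ) < Fintype.card κ := by exact_mod_cast Fintype.card_pos
  have hmain : ∀ η : ℝ, 0 < η → α / 2 ≤ C * √(∑ j, (β j) ^ 2) + η := by
    intro η hη
    have hε : 0 < η ^ 2 / Fintype.card κ := by positivity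
    obtain ⟨F, w, hFK, hFd, hw0, hw1, hdiff⟩ := hil2 ν g hgm (R ^ 2) hgB K hK _ hε
    have e1 := keylow ν b hb f hf hf0 hfb R hR (F i0) (w i0) (hw0 i0) (hw1 i0) (α / 2)
      (fun k hk => hKlow k (hFK i0 k hk))
    have e2 := keycmp ν (fun j ω => ∑ k ∈ F i0, w i0 k * g k j ω)
      (fun j ω => ∑ k ∈ F j, w j k * g k j ω)
      (fun j => integrable_finsetSum _ (fun k _ => (hgi k j).const_mul _))
      (fun j => integrable_finsetSum _ (fun k _ => (hgi k j).const_mul _))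
      (fun j ω => Finset.sum_nonneg (fun k _ => mul_nonneg (hw0 _ _) (hg0 _ _ _)))
      (fun j ω => Finset.sum_nonneg (fun k _ => mul_nonneg (hw0 _ _) (hg0 _ _ _)))
      _ hε (fun j => hdiff i0 j j)
    have e3 := keyup ν b hb β C hC hup R hR F w hFd hw0 hw1
    have e4 : √((Fintype.card κ : ℝ) * (η ^ 2 / Fintype.card κ)) = η := by
      rw [mul_div_cancel₀ _ hcard.ne']
      exact Real.sqrt_sq hη.le
    rw [e4] at e2
    have e5 := e1.trans e2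
    have e6 : ∫ ω, √(∑ j, ∑ k ∈ F j, w j k * g k j ω) ∂ν ≤ C * √(∑ j, (β j) ^ 2) := e3
    linarith
  have := le_of_forall_pos_le_add hmain
  linarith

end Pool.Agent.LNN
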