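import Pool.Agent.Helper547.LN.Defs

set_option autoImplicit false

open MeasureTheory ProbabilityTheory Filter Topology
open scoped ENNReal NNReal unitInterval

universe u v w

namespace Pool.Agent.LNN


theorem khin_rec (F : Finset ℕ) (a : ℕ → ℝ) (n : ℕ) (hn : n ∉ F) (φ : ℝ → ℝ) :
    ∑ A ∈ (insert n F).powerset, φ (∑ k ∈ insert n F, (if k ∈ A then a k else - a k)) =
      ∑ A ∈ F.powerset, (φ ((∑ k ∈ F, (if k ∈ A then a k else - a k)) - a n) +
        φ ((∑ k ∈ F, (if k ∈ A then a k else - a k)) + a n)) := by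
  rw [Finset.sum_powerset_insert hn, ← Finset.sum_add_distrib]
  refine Finset.sum_congr rfl (fun A hA => ?_)
  rw [Finset.mem_powerset] at hA
  have hnA : n ∉ A := fun h => hn (hA h)
  congr 1
  · congr 1
    rw [Finset.sum_insert hn, if_neg hnA]
    ring
  · congr 1
    rw [Finset.sum_insert hn, if_pos (Finset.mem_insert_self n A), add_comm]
    congr 1
    refine Finset.sum_congr rfl (fun k hk => ?_)
    have hkn : k ≠ n := by
      rintro rfl
      exact hn hk
    simp only [Finset.mem_insert, hkn, false_or]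

theorem khin_two (F : Finset ℕ) (a : ℕ → ℝ) :
    ∑ A ∈ F.powerset, (∑ n ∈ F, (if n ∈ A then a n else - a n)) ^ 2 =
      2 ^ F.card * ∑ n ∈ F, a n ^ 2 := by
  induction F using Finset.induction_on with
  | empty => simp
  | insert n F hn ih =>
    rw [khin_rec F a n hn (fun x => x ^ 2), Finset.card_insert_of_notMem hn, Finset.sum_insert hn]
    have h1 : ∀ A ∈ F.powerset,
        (((∑ k ∈ F, (if k ∈ A then a k else - a k)) - a n) ^ 2 +
        ((∑ k ∈ F, (if k ∈ A then a k else - a k)) + a n) ^ 2) =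
        2 * (∑ k ∈ F, (if k ∈ A then a k else - a k)) ^ 2 + 2 * a n ^ 2 := by
      intro A _
      ring
    rw [Finset.sum_congr rfl h1, Finset.sum_add_distrib, ← Finset.mul_sum, ih, Finset.sum_const,
      Finset.card_powerset, nsmul_eq_mul]
    push_cast
    ring

theorem khin_four (F : Finset ℕ) (a : ℕ → ℝ) :
    ∑ A ∈ F.powerset, (∑ n ∈ F, (if n ∈ A then a n else - a n)) ^ 4 ≤
      3 * 2 ^ F.card * (∑ n ∈ F, a n ^ 2) ^ 2 := by
  induction F using Finset.induction_on with
  | empty => simp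
  | insert n F hn ih =>
    rw [khin_rec F a n hn (fun x => x ^ 4), Finset.card_insert_of_notMem hn, Finset.sum_insert hn]
    have h1 : ∀ A ∈ F.powerset,
        (((∑ k ∈ F, (if k ∈ A then a k else - a k)) - a n) ^ 4 +
        ((∑ k ∈ F, (if k ∈ A then a k else - a k)) + a n) ^ 4) =
        2 * (∑ k ∈ F, (if k ∈ A then a k else - a k)) ^ 4 +
        12 * a n ^ 2 * (∑ k ∈ F, (if k ∈ A then a k else - a k)) ^ 2 + 2 * a n ^ 4 := by
      intro A _
      ring
    rw [Finset.sum_congr rfl h1, Finset.sum_add_distrib, Finset.sum_add_distrib, ← Finset.mul_sum,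
      ← Finset.mul_sum, khin_two, Finset.sum_const, Finset.card_powerset, nsmul_eq_mul]
    push_cast
    have hN : (0 : ℝ) ≤ 2 ^ F.card := by positivity
    have h4 : 0 ≤ (2 : ℝ) ^ F.card * a n ^ 4 := by positivity
    rw [pow_succ (2 : ℝ) F.card]
    nlinarith [ih, h4]

theorem khin (F : Finset ℕ) (a : ℕ → ℝ) :
    (1 / 2) * √(∑ n ∈ F, a n ^ 2) ≤
      (∑ A ∈ F.powerset, |∑ n ∈ F, (if n ∈ A then a n else - a n)|) / 2 ^ F.card ∧
    (∑ A ∈ F.powerset, |∑ n ∈ F, (if n ∈ A then a n else - a n)|) / 2 ^ F.card ≤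
      √(∑ n ∈ F, a n ^ 2) := by
  have hN : (0 : ℝ) < 2 ^ F.card := by positivity
  have hsg : 0 ≤ ∑ n ∈ F, a n ^ 2 := Finset.sum_nonneg (fun n _ => sq_nonneg _)
  have h2 := khin_two F a
  have h4 := khin_four F a
  set sg := ∑ n ∈ F, a n ^ 2 with hsgdef
  set s := √sg with hs
  have hs0 : 0 ≤ s := Real.sqrt_nonneg _
  have hss : s ^ 2 = sg := Real.sq_sqrt hsg
  set N : ℝ := 2 ^ F.card with hNdef
  constructor
  · rw [le_div_iff₀ hN]
    rcases hs0.eq_or_lt with h0 | h0
    · rw [← h0, mul_zero, zero_mul]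
      exact Finset.sum_nonneg (fun A _ => abs_nonneg _)
    · have hpt : ∀ A ∈ F.powerset,
          12 * s ^ 2 * (∑ n ∈ F, (if n ∈ A then a n else - a n)) ^ 2 -
            (∑ n ∈ F, (if n ∈ A then a n else - a n)) ^ 4 ≤
          16 * s ^ 3 * |∑ n ∈ F, (if n ∈ A then a n else - a n)| := by
        intro A _
        generalize (∑ n ∈ F, (if n ∈ A then a n else - a n)) = x
        have e2 : x ^ 2 = |x| ^ 2 := (sq_abs x).symm
        have e4 : x ^ 4 = |x| ^ 4 := by
          rw [show (4 : ℕ) = 2 * 2 from rfl, pow_mul, pow_mul, sq_abs]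
        rw [e2, e4]
        have hy : 0 ≤ |x| := abs_nonneg x
        generalize |x| = y at *
        have : 0 ≤ y * (y - 2 * s) ^ 2 * (y + 4 * s) := by positivity
        nlinarith [this]
      have hsum := Finset.sum_le_sum hpt
      rw [Finset.sum_sub_distrib, ← Finset.mul_sum, ← Finset.mul_sum, h2] at hsum
      have hs3 : 0 < 16 * s ^ 3 := by positivity
      have key : 16 * s ^ 3 * (1 / 2 * s * N) ≤
          16 * s ^ 3 * ∑ A ∈ F.powerset, |∑ n ∈ F, (if n ∈ A then a n else - a n)| := by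
        refine le_trans ?_ hsum
        rw [← hss] at h4 ⊢
        have hp : 0 ≤ N * s ^ 4 := by positivity
        nlinarith [h4, hp]
      exact le_of_mul_le_mul_left key hs3
  · rw [div_le_iff₀ hN]
    have hc := sq_sum_le_card_mul_sum_sq (s := F.powerset)
      (f := fun A => |∑ n ∈ F, (if n ∈ A then a n else - a n)|)
    have hc2 : (∑ A ∈ F.powerset, |∑ n ∈ F, (if n ∈ A then a n else - a n)|) ^ 2 ≤ (s * N) ^ 2 := by
      refine hc.trans (le_of_eq ?_)
      simp only [sq_abs]
      rw [h2, Finset.card_powerset, ← hss]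
      push_cast
      ring
    exact (pow_le_pow_iff_left₀ (Finset.sum_nonneg (fun A _ => abs_nonneg _)) (by positivity)
      (by norm_num)).mp hc2

end Pool.Agent.LNN
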