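import Pool.Agent.Helper547.LN.Defs
import Pool.Agent.Helper547.LN.P_key

set_option autoImplicit false

open MeasureTheory ProbabilityTheory Filter Topology
open scoped ENNReal NNReal unitInterval

universe u v w

namespace Pool.Agent.LNN



theorem kq_sqrt_sum_le {ι : Type*} (s : Finset ι) (v : ι → ℝ) (hv : ∀ i, 0 ≤ v i) :
    √(∑ i ∈ s, v i) ≤ ∑ i ∈ s, √(v i) := by
  classical
  induction s using Finset.induction_on with
  | empty => simp
  | insert a s ha ih =>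
    rw [Finset.sum_insert ha, Finset.sum_insert ha]
    have h1 : √(v a + ∑ i ∈ s, v i) ≤ √(v a) + √(∑ i ∈ s, v i) := by
      have h0 : 0 ≤ ∑ i ∈ s, v i := Finset.sum_nonneg (fun i _ => hv i)
      have e1 := Real.sq_sqrt (hv a)
      have e2 := Real.sq_sqrt h0
      have e3 := Real.sqrt_nonneg (v a)
      have e4 := Real.sqrt_nonneg (∑ i ∈ s, v i)
      apply Real.sqrt_le_iff.mpr
      constructor
      · positivity
      · nlinarith [mul_nonneg e3 e4]
    linarith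

theorem kq_int {Ω : Type} [MeasurableSpace Ω] (ν : Measure Ω) {ι : Type*} (s : Finset ι)
    (g : ι → Ω → ℝ) (hg : ∀ i, Integrable (g i) ν) :
    Integrable (fun ω => √(∑ i ∈ s, (g i ω) ^ 2)) ν := by
  have hm : AEStronglyMeasurable (fun ω => √(∑ i ∈ s, (g i ω) ^ 2)) ν := by
    have h1 : AEMeasurable (fun ω => ∑ i ∈ s, (g i ω) ^ 2) ν := by
      have := Finset.aemeasurable_sum s (f := fun i ω => (g i ω) ^ 2) (μ := ν)
        (fun i _ => ((hg i).aestronglyMeasurable.aemeasurable.pow_const 2))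
      have e : (fun ω => ∑ i ∈ s, (g i ω) ^ 2) = ∑ i ∈ s, fun ω => (g i ω) ^ 2 := by
        ext ω; simp [Finset.sum_apply]
      rw [e]; exact this
    exact (h1.sqrt).aestronglyMeasurable
  refine Integrable.mono' (g := fun ω => ∑ i ∈ s, |g i ω|) ?_ hm ?_
  · exact integrable_finsetSum s (fun i _ => (hg i).abs)
  · refine Eventually.of_forall (fun ω => ?_)
    rw [Real.norm_eq_abs, abs_of_nonneg (Real.sqrt_nonneg _)]
    refine (kq_sqrt_sum_le s (fun i => (g i ω) ^ 2) (fun i => sq_nonneg _)).trans ?_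
    apply Finset.sum_le_sum
    intro i _
    rw [Real.sqrt_sq_eq_abs]

theorem kq_coe {Ω : Type} [MeasurableSpace Ω] (ν : Measure Ω) {κ : Type*} (s : Finset κ)
    (a : κ → ℝ) (g : κ → Lp ℝ 1 ν) :
    ∀ᵐ ω ∂ν, (∑ j ∈ s, a j • g j : Lp ℝ 1 ν) ω = ∑ j ∈ s, a j * g j ω := by
  classical
  induction s using Finset.induction_on with
  | empty =>
    filter_upwards [Lp.coeFn_zero ℝ 1 ν] with ω hω
    rw [Finset.sum_empty, Finset.sum_empty]
    exact hω
  | insert b s hb ih =>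
    rw [Finset.sum_insert hb]
    filter_upwards [ih, Lp.coeFn_add (a b • g b) (∑ j ∈ s, a j • g j), Lp.coeFn_smul (a b) (g b)] with ω h1 h2 h3
    rw [h2, Finset.sum_insert hb, Pi.add_apply, h3, h1, Pi.smul_apply, smul_eq_mul]

theorem kq_mink {Ω : Type} [MeasurableSpace Ω] (ν : Measure Ω) {ι : Type*} [Fintype ι]
    (u : ι → Ω → ℝ) (hu : ∀ i, Integrable (u i) ν) :
    √(∑ i, (∫ ω, |u i ω| ∂ν) ^ 2) ≤ ∫ ω, √(∑ i, (u i ω) ^ 2) ∂ν := by
  set a : ι → ℝ := fun i => ∫ ω, |u i ω| ∂ν with ha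
  set R := √(∑ i, (a i) ^ 2) with hR
  have hR0 : 0 ≤ R := Real.sqrt_nonneg _
  have hRR : R ^ 2 = ∑ i, (a i) ^ 2 := Real.sq_sqrt (Finset.sum_nonneg fun i _ => sq_nonneg _)
  have hi := kq_int ν Finset.univ u hu
  have h1 : R ^ 2 ≤ R * ∫ ω, √(∑ i, (u i ω) ^ 2) ∂ν := by
    rw [hRR, ← integral_const_mul]
    have e : ∑ i, (a i) ^ 2 = ∫ ω, ∑ i, a i * |u i ω| ∂ν := by
      rw [integral_finsetSum _ (fun i _ => (hu i).abs.const_mul (a i))]
      apply Finset.sum_congr rfl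
      intro i _
      rw [integral_const_mul, sq]
    rw [e]
    apply integral_mono (integrable_finsetSum _ (fun i _ => (hu i).abs.const_mul (a i))) (hi.const_mul R)
    intro ω
    simp only
    have hcs := Finset.sum_mul_sq_le_sq_mul_sq Finset.univ a (fun i => |u i ω|)
    have h3 : (∑ i, a i * |u i ω|) ≤ √((∑ i, a i ^ 2) * ∑ i, |u i ω| ^ 2) :=
      Real.le_sqrt_of_sq_le hcs
    rw [Real.sqrt_mul (Finset.sum_nonneg fun i _ => sq_nonneg _)] at h3
    simpa [sq_abs] using h3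
  rcases hR0.lt_or_eq with h | h
  · nlinarith
  · rw [← h]
    exact integral_nonneg (fun ω => Real.sqrt_nonneg _)

theorem kinq {Ω : Type} [MeasurableSpace Ω] (ν : Measure Ω) [IsProbabilityMeasure ν]
    {X : Type u} [NormedAddCommGroup X] [NormedSpace ℝ X]
    (J : ℕ → (X →ₗ[ℝ] Lp ℝ 1 ν)) (c C : ℝ) (hc : 0 < c) (hC : 0 < C)
    (h : ∀ (F : Finset ℕ) (x : ℕ → X),
      c * √(∑ m ∈ F, ‖x m‖ ^ 2) ≤ ∫ ω, √(∑ m ∈ F, (J m (x m) ω) ^ 2) ∂ν ∧
      ∫ ω, √(∑ m ∈ F, (J m (x m) ω) ^ 2) ∂ν ≤ C * √(∑ m ∈ F, ‖x m‖ ^ 2))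
    {ι κ : Type} [Fintype ι] [Fintype κ] (A : ι → κ → ℝ)
    (hA : ∀ t : κ → ℝ, ∑ i, (∑ j, A i j * t j) ^ 2 ≤ ∑ j, (t j) ^ 2)
    (x : ι → X) (y : κ → X) (hxy : ∀ i, x i = ∑ j, A i j • y j) :
    c * √(∑ i, ‖x i‖ ^ 2) ≤ 2 * C * √(∑ j, ‖y j‖ ^ 2) := by
  have hint : ∀ k z, Integrable (fun ω => (J k z) ω) ν := fun k z => L1.integrable_coeFn (J k z)
  refine key ν (fun k j ω => J k (y j) ω) (fun k j => hint k (y j))
    (fun k ω => √(∑ i, (J k (x i) ω) ^ 2)) (fun k => kq_int ν Finset.univ _ (fun i => hint k (x i)))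
    (fun k ω => Real.sqrt_nonneg _) ?_ (fun j => ‖y j‖) C hC.le ?_ (c * √(∑ i, ‖x i‖ ^ 2)) ?_
    (C * ∑ i, ‖x i‖) ?_
  · intro k
    have h1 : ∀ i, ∀ᵐ ω ∂ν, J k (x i) ω = ∑ j, A i j * J k (y j) ω := by
      intro i
      have := kq_coe ν Finset.univ (A i) (fun j => J k (y j))
      rw [hxy i, map_sum]
      simpa only [map_smul] using this
    have h2 : ∀ᵐ ω ∂ν, ∀ i, J k (x i) ω = ∑ j, A i j * J k (y j) ω := ae_all_iff.mpr h1
    filter_upwards [h2] with ω hω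
    rw [Real.sq_sqrt (Finset.sum_nonneg fun i _ => sq_nonneg _)]
    have := hA (fun j => J k (y j) ω)
    simp only [hω]
    exact this
  · intro F j s hs
    have h1 := (h F (fun m => √(s m) • y (j m))).2
    have h2 : ∀ᵐ ω ∂ν, ∀ m : ℕ, J m (√(s m) • y (j m)) ω = √(s m) * J m (y (j m)) ω := by
      rw [ae_all_iff]
      intro m
      rw [map_smul]
      filter_upwards [Lp.coeFn_smul (√(s m)) (J m (y (j m)))] with ω hω
      rw [hω]; rfl
    have h3 : ∫ ω, √(∑ k ∈ F, s k * (J k (y (j k)) ω) ^ 2) ∂ν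
        = ∫ ω, √(∑ m ∈ F, (J m (√(s m) • y (j m)) ω) ^ 2) ∂ν := by
      apply integral_congr_ae
      filter_upwards [h2] with ω hω
      congr 1
      apply Finset.sum_congr rfl
      intro k _
      rw [hω k, mul_pow, Real.sq_sqrt (hs k)]
    rw [h3]
    refine h1.trans (le_of_eq ?_)
    congr 2
    apply Finset.sum_congr rfl
    intro m _
    rw [norm_smul, mul_pow, Real.norm_eq_abs, sq_abs, Real.sq_sqrt (hs m)]
  · intro k
    have h1 : ∀ i, c * ‖x i‖ ≤ ∫ ω, |J k (x i) ω| ∂ν := by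
      intro i
      have := (h {k} (fun _ => x i)).1
      simpa [Real.sqrt_sq_eq_abs] using this
    have h2 := kq_mink ν (fun i ω => J k (x i) ω) (fun i => hint k (x i))
    refine le_trans ?_ h2
    rw [← Real.sqrt_sq hc.le, ← Real.sqrt_mul (sq_nonneg c), Finset.mul_sum]
    apply Real.sqrt_le_sqrt
    apply Finset.sum_le_sum
    intro i _
    rw [← mul_pow]
    exact pow_le_pow_left₀ (by positivity) (h1 i) 2
  · intro F
    have h1 : ∀ i, ∫ ω, √(∑ k ∈ F, (J k (x i) ω) ^ 2) ∂ν ≤ C * (√(F.card : ℝ) * ‖x i‖) := by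
      intro i
      have := (h F (fun _ => x i)).2
      refine this.trans (le_of_eq ?_)
      rw [Finset.sum_const, nsmul_eq_mul, Real.sqrt_mul (Nat.cast_nonneg _), Real.sqrt_sq (norm_nonneg _)]
    have h2 : ∫ ω, √(∑ k ∈ F, (√(∑ i, (J k (x i) ω) ^ 2)) ^ 2) ∂ν
        ≤ ∫ ω, ∑ i, √(∑ k ∈ F, (J k (x i) ω) ^ 2) ∂ν := by
      apply integral_mono
      · exact kq_int ν F _ (fun k => kq_int ν Finset.univ _ (fun i => hint k (x i)))
      · exact integrable_finsetSum _ (fun i _ => kq_int ν F (fun k ω => J k (x i) ω) (fun k => hint k (x i)))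
      · intro ω
        simp only
        have e : ∑ k ∈ F, (√(∑ i, (J k (x i) ω) ^ 2)) ^ 2 = ∑ i, ∑ k ∈ F, (J k (x i) ω) ^ 2 := by
          rw [Finset.sum_comm]
          apply Finset.sum_congr rfl
          intro k _
          rw [Real.sq_sqrt (Finset.sum_nonneg fun i _ => sq_nonneg _)]
        rw [e]
        exact kq_sqrt_sum_le _ _ (fun i => Finset.sum_nonneg fun k _ => sq_nonneg _)
    refine h2.trans ?_
    rw [integral_finsetSum _ (fun i _ => kq_int ν F (fun k ω => J k (x i) ω) (fun k => hint k (x i)))]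
    refine (Finset.sum_le_sum (fun i _ => h1 i)).trans (le_of_eq ?_)
    rw [← Finset.mul_sum, ← Finset.mul_sum]
    ring

end Pool.Agent.LNN
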