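import Pool.Agent.Helper547.LN.Defs

set_option autoImplicit false

open MeasureTheory ProbabilityTheory Filter Topology
open scoped ENNReal NNReal unitInterval

universe u v w

namespace Pool.Agent.LNN



theorem linalg_sq {V : Type u} (s : Finset V) (t : EuclideanSpace ℝ s) :
    ‖t‖ ^ 2 = ∑ j, (t j) ^ 2 := by
  rw [EuclideanSpace.norm_sq_eq]
  exact Finset.sum_congr rfl fun j _ => by rw [Real.norm_eq_abs, sq_abs]

theorem linalg {V : Type u} [NormedAddCommGroup V] [NormedSpace ℝ V] (s s' : Finset V)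
    (z z' : V → V)
    (h : ∀ l : StrongDual ℝ V, ∑ i ∈ s, l (z i) ^ 2 = ∑ i ∈ s', l (z' i) ^ 2) :
    ∃ A : V → V → ℝ, (∀ t : V → ℝ, ∑ i ∈ s, (∑ j ∈ s', A i j * t j) ^ 2 ≤ ∑ j ∈ s', (t j) ^ 2) ∧
      ∀ i ∈ s, z i = ∑ j ∈ s', A i j • z' j := by
  classical
  let P : StrongDual ℝ V →ₗ[ℝ] EuclideanSpace ℝ s' :=
    { toFun := fun l => WithLp.toLp 2 fun j : s' => l (z' j)
      map_add' := fun a b => by ext j; rfl
      map_smul' := fun c a => by ext j; rfl }
  let Q : StrongDual ℝ V →ₗ[ℝ] EuclideanSpace ℝ s :=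
    { toFun := fun l => WithLp.toLp 2 fun i : s => l (z i)
      map_add' := fun a b => by ext j; rfl
      map_smul' := fun c a => by ext j; rfl }
  have hP : ∀ l j, P l j = l (z' (j : V)) := fun _ _ => rfl
  have hQ : ∀ l i, Q l i = l (z (i : V)) := fun _ _ => rfl
  have hnorm : ∀ l, ‖Q l‖ ^ 2 = ‖P l‖ ^ 2 := by
    intro l
    rw [linalg_sq, linalg_sq]
    simp only [hP, hQ]
    rw [Finset.sum_coe_sort s (fun i => l (z i) ^ 2), Finset.sum_coe_sort s' (fun i => l (z' i) ^ 2)]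
    exact h l
  obtain ⟨sgm, hsgm⟩ := P.rangeRestrict.exists_rightInverse_of_surjective (LinearMap.range_rangeRestrict P)
  have hsgm' : ∀ e : LinearMap.range P, P (sgm e) = e := by
    intro e
    have h1 : P.rangeRestrict (sgm e) = e := congrArg (fun f => f e) hsgm
    exact congrArg Subtype.val h1
  let U : LinearMap.range P →ₗ[ℝ] EuclideanSpace ℝ s := Q ∘ₗ sgm
  have hU1 : ∀ e, ‖U e‖ ^ 2 = ‖e‖ ^ 2 := by
    intro e
    show ‖Q (sgm e)‖ ^ 2 = _
    rw [hnorm, hsgm']
    rfl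
  have hU2 : ∀ l, U ⟨P l, LinearMap.mem_range_self P l⟩ = Q l := by
    intro l
    set e : LinearMap.range P := ⟨P l, LinearMap.mem_range_self P l⟩ with he
    show Q (sgm e) = Q l
    have h1 : P (sgm e - l) = 0 := by
      rw [map_sub, hsgm']
      exact sub_self _
    have h2 := hnorm (sgm e - l)
    rw [h1, norm_zero] at h2
    have h3 : ‖Q (sgm e - l)‖ = 0 := by
      have : ‖Q (sgm e - l)‖ ^ 2 = 0 := by rw [h2]; norm_num
      exact pow_eq_zero_iff (two_ne_zero) |>.1 this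
    rw [norm_eq_zero, map_sub, sub_eq_zero] at h3
    exact h3
  let E : Submodule ℝ (EuclideanSpace ℝ s') := LinearMap.range P
  let W : EuclideanSpace ℝ s' →ₗ[ℝ] EuclideanSpace ℝ s :=
    U ∘ₗ (E.orthogonalProjectionOnto : EuclideanSpace ℝ s' →L[ℝ] E).toLinearMap
  have hW1 : ∀ t, ‖W t‖ ^ 2 ≤ ‖t‖ ^ 2 := by
    intro t
    show ‖U (E.orthogonalProjectionOnto t)‖ ^ 2 ≤ _
    rw [hU1]
    exact pow_le_pow_left₀ (norm_nonneg _) (E.norm_orthogonalProjectionOnto_apply_le t) 2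
  have hW2 : ∀ l, W (P l) = Q l := by
    intro l
    show U (E.orthogonalProjectionOnto (P l)) = Q l
    have h1 : E.orthogonalProjectionOnto (P l) = ⟨P l, LinearMap.mem_range_self P l⟩ :=
      Submodule.orthogonalProjectionOnto_mem_subspace_eq_self
        (⟨P l, LinearMap.mem_range_self P l⟩ : E)
    rw [h1]
    exact hU2 l
  let A : V → V → ℝ := fun i j => if hij : i ∈ s ∧ j ∈ s' then
    W (EuclideanSpace.single (⟨j, hij.2⟩ : s') (1 : ℝ)) (⟨i, hij.1⟩ : s) else 0
  have hA : ∀ (t : EuclideanSpace ℝ s') (i : s), W t i = ∑ j : s', A i j * t j := by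
    intro t i
    have ht : t = ∑ j : s', t j • (EuclideanSpace.single j (1 : ℝ) : EuclideanSpace ℝ s') := by
      have := (EuclideanSpace.basisFun s' ℝ).sum_repr t
      simpa using this.symm
    have h1 : W t = ∑ j : s', t j • W (EuclideanSpace.single j (1 : ℝ)) := by
      conv_lhs => rw [ht]
      rw [map_sum]
      exact Finset.sum_congr rfl fun j _ => by rw [map_smul]
    rw [h1]
    have h2 : (∑ j : s', t j • W (EuclideanSpace.single j (1 : ℝ))) i =
        ∑ j : s', t j * (W (EuclideanSpace.single j (1 : ℝ))) i := by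
      simp
    rw [h2]
    refine Finset.sum_congr rfl fun j _ => ?_
    have h3 : A i j = (W (EuclideanSpace.single j (1 : ℝ))) i := by
      show (if hij : (i : V) ∈ s ∧ (j : V) ∈ s' then _ else _) = _
      rw [dif_pos ⟨i.2, j.2⟩]
    rw [h3, mul_comm]
  refine ⟨A, ?_, ?_⟩
  · intro t
    let t' : EuclideanSpace ℝ s' := WithLp.toLp 2 fun j : s' => t j
    have h1 := hW1 t'
    rw [linalg_sq, linalg_sq] at h1
    have h2 : ∑ j : s', (t' j) ^ 2 = ∑ j ∈ s', (t j) ^ 2 := Finset.sum_coe_sort s' fun j => t j ^ 2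
    have h3 : ∑ i : s, (W t' i) ^ 2 = ∑ i ∈ s, (∑ j ∈ s', A i j * t j) ^ 2 := by
      rw [← Finset.sum_coe_sort s fun i => (∑ j ∈ s', A i j * t j) ^ 2]
      refine Finset.sum_congr rfl fun i _ => ?_
      rw [hA t' i, ← Finset.sum_coe_sort s' fun j => A i j * t j]
    rw [h2, h3] at h1
    exact h1
  · intro i hi
    rw [SeparatingDual.eq_iff_forall_dual_eq (R := ℝ)]
    intro l
    have h1 : l (z i) = Q l (⟨i, hi⟩ : s) := rfl
    rw [h1, ← hW2, hA, map_sum, ← Finset.sum_coe_sort s' fun j => l (A i j • z' j)]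
    refine Finset.sum_congr rfl fun j _ => ?_
    rw [map_smul, hP, smul_eq_mul]

end Pool.Agent.LNN
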