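import Pool.Agent.Helper547.LN.Defs
import Pool.Agent.Helper547.LN.P_kinq
import Pool.Agent.Helper547.LN.P_linalg

set_option autoImplicit false

open MeasureTheory ProbabilityTheory Filter Topology
open scoped ENNReal NNReal unitInterval

universe u v w

namespace Pool.Agent.LNN



theorem kinq2_conv {X : Type u} {M : Type v} [AddCommMonoid M] (s : Finset X) (f : X → M) :
    ∑ i : Fin s.card, f ((s.equivFin.symm i : s) : X) = ∑ i ∈ s, f i := by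
  rw [← Finset.sum_coe_sort s f]
  exact Equiv.sum_comp s.equivFin.symm (fun i : s => f (i : X))

theorem kinq2 {Ω : Type} [MeasurableSpace Ω] (ν : Measure Ω) [IsProbabilityMeasure ν]
    {X : Type u} [NormedAddCommGroup X] [NormedSpace ℝ X]
    (J : ℕ → (X →ₗ[ℝ] Lp ℝ 1 ν)) (c C : ℝ) (hc : 0 < c) (hC : 0 < C)
    (h : ∀ (F : Finset ℕ) (x : ℕ → X),
      c * √(∑ m ∈ F, ‖x m‖ ^ 2) ≤ ∫ ω, √(∑ m ∈ F, (J m (x m) ω) ^ 2) ∂ν ∧
      ∫ ω, √(∑ m ∈ F, (J m (x m) ω) ^ 2) ∂ν ≤ C * √(∑ m ∈ F, ‖x m‖ ^ 2))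
    (s s' : Finset X) (z z' : X → X)
    (hz : ∀ l : StrongDual ℝ X, ∑ i ∈ s, l (z i) ^ 2 = ∑ i ∈ s', l (z' i) ^ 2) :
    ∑ i ∈ s, ‖z i‖ ^ 2 ≤ ((2 * C / c) ^ 2) * ∑ i ∈ s', ‖z' i‖ ^ 2 := by
  classical
  obtain ⟨A, hA1, hA2⟩ := linalg s s' z z' hz
  have hB : ∀ t : Fin s'.card → ℝ,
      ∑ i : Fin s.card, (∑ j : Fin s'.card,
        A ((s.equivFin.symm i : s) : X) ((s'.equivFin.symm j : s') : X) * t j) ^ 2 ≤
      ∑ j, (t j) ^ 2 := by
    intro t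
    let t2 : X → ℝ := fun v => if hv : v ∈ s' then t (s'.equivFin ⟨v, hv⟩) else 0
    have ht2 : ∀ j : Fin s'.card, t2 ((s'.equivFin.symm j : s') : X) = t j := by
      intro j
      have hm : ((s'.equivFin.symm j : s') : X) ∈ s' := (s'.equivFin.symm j).2
      have h3 : t2 ((s'.equivFin.symm j : s') : X)
          = t (s'.equivFin ⟨((s'.equivFin.symm j : s') : X), hm⟩) := dif_pos hm
      rw [h3]
      congr 1
      exact s'.equivFin.apply_symm_apply j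
    calc ∑ i : Fin s.card, (∑ j : Fin s'.card,
        A ((s.equivFin.symm i : s) : X) ((s'.equivFin.symm j : s') : X) * t j) ^ 2
        = ∑ i : Fin s.card, (∑ j ∈ s', A ((s.equivFin.symm i : s) : X) j * t2 j) ^ 2 := by
          refine Finset.sum_congr rfl (fun i _ => ?_)
          rw [← kinq2_conv s' (fun j => A ((s.equivFin.symm i : s) : X) j * t2 j)]
          congr 1
          refine Finset.sum_congr rfl (fun j _ => ?_)
          rw [ht2]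
      _ = ∑ i ∈ s, (∑ j ∈ s', A i j * t2 j) ^ 2 :=
          kinq2_conv s (fun i => (∑ j ∈ s', A i j * t2 j) ^ 2)
      _ ≤ ∑ j ∈ s', (t2 j) ^ 2 := hA1 t2
      _ = ∑ j, (t j) ^ 2 := by
          rw [← kinq2_conv s' (fun j => (t2 j) ^ 2)]
          refine Finset.sum_congr rfl (fun j _ => ?_)
          rw [ht2]
  have hxy : ∀ i : Fin s.card, z ((s.equivFin.symm i : s) : X) =
      ∑ j : Fin s'.card, A ((s.equivFin.symm i : s) : X) ((s'.equivFin.symm j : s') : X) •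
        z' ((s'.equivFin.symm j : s') : X) := by
    intro i
    rw [kinq2_conv s' (fun j => A ((s.equivFin.symm i : s) : X) j • z' j)]
    exact hA2 _ (s.equivFin.symm i).2
  have hk := kinq ν J c C hc hC h
    (fun (i : Fin s.card) (j : Fin s'.card) =>
      A ((s.equivFin.symm i : s) : X) ((s'.equivFin.symm j : s') : X)) hB
    (fun i => z ((s.equivFin.symm i : s) : X)) (fun j => z' ((s'.equivFin.symm j : s') : X)) hxy
  have e1 : ∑ i : Fin s.card, ‖z ((s.equivFin.symm i : s) : X)‖ ^ 2 = ∑ i ∈ s, ‖z i‖ ^ 2 :=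
    kinq2_conv s (fun i => ‖z i‖ ^ 2)
  have e2 : ∑ i : Fin s'.card, ‖z' ((s'.equivFin.symm i : s') : X)‖ ^ 2
      = ∑ i ∈ s', ‖z' i‖ ^ 2 :=
    kinq2_conv s' (fun i => ‖z' i‖ ^ 2)
  simp only [e1, e2] at hk
  have hP : 0 ≤ ∑ i ∈ s, ‖z i‖ ^ 2 := Finset.sum_nonneg (fun i _ => sq_nonneg _)
  have hQ : 0 ≤ ∑ i ∈ s', ‖z' i‖ ^ 2 := Finset.sum_nonneg (fun i _ => sq_nonneg _)
  have h1 : √(∑ i ∈ s, ‖z i‖ ^ 2) ≤ (2 * C / c) * √(∑ i ∈ s', ‖z' i‖ ^ 2) := by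
    rw [div_mul_eq_mul_div, le_div_iff₀ hc]
    linarith
  calc ∑ i ∈ s, ‖z i‖ ^ 2 = √(∑ i ∈ s, ‖z i‖ ^ 2) ^ 2 := (Real.sq_sqrt hP).symm
    _ ≤ ((2 * C / c) * √(∑ i ∈ s', ‖z' i‖ ^ 2)) ^ 2 :=
        pow_le_pow_left₀ (Real.sqrt_nonneg _) h1 2
    _ = ((2 * C / c) ^ 2) * ∑ i ∈ s', ‖z' i‖ ^ 2 := by
        rw [mul_pow, Real.sq_sqrt hQ]

end Pool.Agent.LNN
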