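import Pool.Agent.Helper547.LN.Defs

set_option autoImplicit false

open MeasureTheory ProbabilityTheory Filter Topology
open scoped ENNReal NNReal unitInterval

universe u v w

namespace Pool.Agent.LNN



theorem nothilb (p : ℝ≥0∞) [Fact (1 ≤ p)] (hp : p < 2) (H : Type u) [NormedAddCommGroup H]
    [InnerProductSpace ℝ H] (e : lp (fun _ : ℕ => ℝ) p ≃L[ℝ] H) : False := by
  have hpt : p ≠ ⊤ := (hp.trans (by simp)).ne
  have hp1 : 1 ≤ p := Fact.out
  have hp0 : 0 < p := lt_of_lt_of_le one_pos hp1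
  have hP1 : 1 ≤ p.toReal := by
    have := ENNReal.toReal_mono hpt hp1
    simpa using this
  have hP2 : p.toReal < 2 := by
    have := (ENNReal.toReal_lt_toReal hpt (by simp : (2:ℝ≥0∞) ≠ ⊤)).2 hp
    simpa using this
  set P := p.toReal with hP
  set C0 : ℝ := ‖(e : lp (fun _ : ℕ => ℝ) p →L[ℝ] H)‖ with hC0
  set c0 : ℝ := ‖(e.symm : H →L[ℝ] lp (fun _ : ℕ => ℝ) p)‖ with hc0
  have hC0n : 0 ≤ C0 := norm_nonneg _
  have hc0n : 0 ≤ c0 := norm_nonneg _
  have key : ∀ n : ℕ, ∃ s : ℕ → ℝ, (∀ k, |s k| = 1) ∧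
      ‖e (∑ k ∈ Finset.range n, lp.single p k (s k))‖ ^ 2 ≤ n * C0 ^ 2 := by
    intro n
    induction n with
    | zero => exact ⟨fun _ => 1, fun _ => by simp, by simp⟩
    | succ n ih =>
      obtain ⟨s, hs1, hs2⟩ := ih
      set y := e (∑ k ∈ Finset.range n, lp.single p k (s k)) with hy
      set w := e (lp.single p n (1:ℝ)) with hw
      have hwn : ‖w‖ ≤ C0 := by
        have h1 := (e : lp (fun _ : ℕ => ℝ) p →L[ℝ] H).le_opNorm (lp.single p n (1:ℝ))
        have h2 : ‖(lp.single p n (1:ℝ) : lp (fun _ : ℕ => ℝ) p)‖ = 1 := by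
          rw [lp.norm_single hp0]; simp
        rw [h2, mul_one] at h1
        exact h1
      have hw2 : ‖w‖ ^ 2 ≤ C0 ^ 2 := by gcongr
      have hpar := parallelogram_law_with_norm ℝ y w
      have hsum : ∀ sg : ℝ, ∑ k ∈ Finset.range (n+1), lp.single (E := fun _ : ℕ => ℝ) p k (Function.update s n sg k)
          = ∑ k ∈ Finset.range n, lp.single p k (s k) + lp.single p n sg := by
        intro sg
        rw [Finset.sum_range_succ, Function.update_self]
        congr 1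
        apply Finset.sum_congr rfl
        intro k hk
        rw [Function.update_of_ne (Finset.mem_range.1 hk).ne]
      have habs : ∀ sg : ℝ, |sg| = 1 → ∀ k, |Function.update s n sg k| = 1 := by
        intro sg hsg k
        by_cases hk : k = n
        · rw [hk, Function.update_self]; exact hsg
        · rw [Function.update_of_ne hk]; exact hs1 k
      rcases le_total (‖y + w‖) (‖y - w‖) with h | h
      · refine ⟨Function.update s n 1, habs 1 (by simp), ?_⟩
        rw [hsum, map_add, ← hy, ← hw]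
        have h3 : ‖y + w‖ ^ 2 ≤ ‖y - w‖ ^ 2 := by gcongr
        push_cast
        nlinarith
      · refine ⟨Function.update s n (-1), habs (-1) (by simp), ?_⟩
        have hneg : (lp.single p n (-1:ℝ) : lp (fun _ : ℕ => ℝ) p) = - lp.single p n (1:ℝ) := by
          rw [← lp.single_neg]
        rw [hsum, map_add, ← hy, hneg, map_neg, ← hw, ← sub_eq_add_neg]
        have h3 : ‖y - w‖ ^ 2 ≤ ‖y + w‖ ^ 2 := by gcongr
        push_cast
        nlinarith
  set K : ℝ := c0 * C0 with hK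
  have hKn : 0 ≤ K := mul_nonneg hc0n hC0n
  have main : ∀ n : ℕ, (n : ℝ) ≤ K ^ P * (n : ℝ) ^ (P / 2) := by
    intro n
    obtain ⟨s, hs1, hs2⟩ := key n
    set x : lp (fun _ : ℕ => ℝ) p := ∑ k ∈ Finset.range n, lp.single p k (s k) with hx
    have h1 : ‖x‖ ^ P = n := by
      rw [hx, hP, lp.norm_sum_single (by rw [← hP]; linarith)]
      rw [Finset.sum_congr rfl (fun k _ => by rw [Real.norm_eq_abs, hs1 k, Real.one_rpow])]
      simp
    have h2 : ‖x‖ ≤ c0 * ‖e x‖ := by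
      have := (e.symm : H →L[ℝ] lp (fun _ : ℕ => ℝ) p).le_opNorm (e x)
      simpa using this
    have h3 : ‖x‖ ^ 2 ≤ K ^ 2 * n := by
      calc ‖x‖ ^ 2 ≤ (c0 * ‖e x‖) ^ 2 := by gcongr
        _ = c0 ^ 2 * ‖e x‖ ^ 2 := by ring
        _ ≤ c0 ^ 2 * (n * C0 ^ 2) := by gcongr
        _ = K ^ 2 * n := by rw [hK]; ring
    have h4 : ‖x‖ ≤ K * (n:ℝ) ^ (1/2 : ℝ) := by
      rw [← Real.sqrt_eq_rpow]
      refine (abs_le_of_sq_le_sq' ?_ ?_).2
      · rw [mul_pow, Real.sq_sqrt (Nat.cast_nonneg n)]; exact h3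
      · positivity
    calc (n : ℝ) = ‖x‖ ^ P := h1.symm
      _ ≤ (K * (n:ℝ) ^ (1/2 : ℝ)) ^ P := Real.rpow_le_rpow (norm_nonneg _) h4 (by linarith)
      _ = K ^ P * (n : ℝ) ^ (P / 2) := by
        rw [Real.mul_rpow hKn (by positivity), ← Real.rpow_mul (Nat.cast_nonneg n)]
        congr 2
        ring
  have ht : Tendsto (fun n : ℕ => (n : ℝ) ^ (1 - P / 2)) atTop atTop :=
    (tendsto_rpow_atTop (by linarith)).comp tendsto_natCast_atTop_atTop
  obtain ⟨n, hn1, hn2⟩ := ((ht.eventually_gt_atTop (K ^ P)).and (eventually_ge_atTop 1)).exists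
  have hnpos : (0:ℝ) < n := by exact_mod_cast hn2
  have h5 := main n
  have h6 : (n : ℝ) = (n : ℝ) ^ (1 - P / 2) * (n : ℝ) ^ (P / 2) := by
    rw [← Real.rpow_add hnpos]
    simp
  have h7 : (0:ℝ) < (n : ℝ) ^ (P / 2) := Real.rpow_pos_of_pos hnpos _
  have h8 : K ^ P * (n : ℝ) ^ (P / 2) < (n : ℝ) ^ (1 - P / 2) * (n : ℝ) ^ (P / 2) :=
    mul_lt_mul_of_pos_right hn1 h7
  rw [← h6] at h8
  linarith

end Pool.Agent.LNN
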