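import Pool.Agent.Helper547.LN.Defs

set_option autoImplicit false

open MeasureTheory ProbabilityTheory Filter Topology
open scoped ENNReal NNReal unitInterval

universe u v w

namespace Pool.Agent.LNN



theorem sephil (A : Type u) [NormedAddCommGroup A] [InnerProductSpace ℝ A] [CompleteSpace A]
    [TopologicalSpace.SeparableSpace A] : EmbedsIn A (lp (fun _ : ℕ => ℝ) 2) := by
  classical
  obtain ⟨w, b, hb⟩ := exists_hilbertBasis ℝ A
  have hon : Orthonormal ℝ ((↑) : w → A) := by
    rw [← hb]; exact b.orthonormal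
  have hwc : w.Countable := by
    have hdisj : w.PairwiseDisjoint (fun x => Metric.ball x (1/2)) := by
      intro x hx y hy hxy
      apply Metric.ball_disjoint_ball
      have hx1 : ‖x‖ = 1 := hon.1 ⟨x, hx⟩
      have hy1 : ‖y‖ = 1 := hon.1 ⟨y, hy⟩
      have hin : inner ℝ x y = (0 : ℝ) := hon.2 (i := ⟨x, hx⟩) (j := ⟨y, hy⟩) (by
        intro h
        exact hxy (congrArg Subtype.val h))
      rw [dist_eq_norm]
      have h1 : ‖x - y‖ ^ 2 = 2 := by
        rw [@norm_sub_sq_real, hx1, hy1, hin]; norm_num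
      nlinarith [norm_nonneg (x - y)]
    exact hdisj.countable_of_isOpen (fun x _ => Metric.isOpen_ball)
      (fun x _ => ⟨x, Metric.mem_ball_self (by norm_num)⟩)
  have hwC : Countable w := hwc.to_subtype
  obtain ⟨f, hf⟩ := exists_injective_nat w
  obtain ⟨b0⟩ : Nonempty (HilbertBasis ℕ ℝ (lp (fun _ : ℕ => ℝ) 2)) :=
    ⟨HilbertBasis.ofRepr (LinearIsometryEquiv.refl ℝ _)⟩
  have hv : Orthonormal ℝ (fun i : w => b0 (f i)) := b0.orthonormal.comp f hf
  let T : A →ₗᵢ[ℝ] (lp (fun _ : ℕ => ℝ) 2) :=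
    (hv.orthogonalFamily.linearIsometry).comp b.repr.toLinearIsometry
  refine ⟨T.toContinuousLinearMap, 1, one_pos, fun a => ?_⟩
  rw [one_mul]
  exact (T.norm_map a).symm.le

end Pool.Agent.LNN
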