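import Pool.Agent.Helper547.LN.Defs

set_option autoImplicit false

open MeasureTheory ProbabilityTheory Filter Topology
open scoped ENNReal NNReal unitInterval

universe u v w

namespace Pool.Agent.LNN



theorem split2 {X : Type u} [NormedAddCommGroup X] [NormedSpace ℝ X] {Z : Type v}
    [NormedAddCommGroup Z] [NormedSpace ℝ Z]
    (h : EmbedsIn (lp (fun _ : ℕ => X) 2) Z) :
    ∃ (J : ℕ → (X →ₗ[ℝ] Z)) (c C : ℝ), 0 < c ∧ 0 < C ∧
      ∀ (F : Finset ℕ) (x : ℕ → X),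
        c * √(∑ m ∈ F, ‖x m‖ ^ 2) ≤ ‖∑ m ∈ F, J m (x m)‖ ∧
        ‖∑ m ∈ F, J m (x m)‖ ≤ C * √(∑ m ∈ F, ‖x m‖ ^ 2) := by
  classical
  obtain ⟨T, c, hc, hT⟩ := h
  have key : ∀ (F : Finset ℕ) (x : ℕ → X),
      ‖∑ m ∈ F, (lp.single 2 m (x m) : lp (fun _ : ℕ => X) 2)‖ = √(∑ m ∈ F, ‖x m‖ ^ 2) := by
    intro F x
    have h1 := lp.norm_sum_single (E := fun _ : ℕ => X) (p := 2) (by norm_num) x F
    simp only [ENNReal.toReal_ofNat, Real.rpow_ofNat] at h1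
    rw [← h1, Real.sqrt_sq (norm_nonneg _)]
  refine ⟨fun m =>
    { toFun := fun y => T (lp.single 2 m y)
      map_add' := fun y z => by rw [lp.single_add, map_add]
      map_smul' := fun r y => by
        rw [lp.single_smul, map_smul]
        rfl }, c, ‖T‖ + 1, hc, by positivity, ?_⟩
  intro F x
  have e : (∑ m ∈ F, T (lp.single 2 m (x m) : lp (fun _ : ℕ => X) 2)) =
      T (∑ m ∈ F, (lp.single 2 m (x m) : lp (fun _ : ℕ => X) 2)) := by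
    rw [map_sum]
  show c * √(∑ m ∈ F, ‖x m‖ ^ 2) ≤ ‖∑ m ∈ F, T (lp.single 2 m (x m) : lp (fun _ : ℕ => X) 2)‖ ∧
    ‖∑ m ∈ F, T (lp.single 2 m (x m) : lp (fun _ : ℕ => X) 2)‖ ≤ (‖T‖ + 1) * √(∑ m ∈ F, ‖x m‖ ^ 2)
  rw [e, ← key F x]
  refine ⟨hT _, (T.le_opNorm _).trans ?_⟩
  exact mul_le_mul_of_nonneg_right (by linarith) (norm_nonneg _)

end Pool.Agent.LNN
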