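import Pool.Agent.Helper547.LN.Defs
import Pool.Agent.Helper547.LN.P_khin

set_option autoImplicit false

open MeasureTheory ProbabilityTheory Filter Topology
open scoped ENNReal NNReal unitInterval

universe u v w

namespace Pool.Agent.LNN



theorem star_sum_ae {Ω : Type} [MeasurableSpace Ω] (ν : Measure Ω) (A : Finset ℕ)
    (g : ℕ → Lp ℝ 1 ν) (F : Finset ℕ) :
    ((∑ m ∈ F, (if m ∈ A then g m else - g m) : Lp ℝ 1 ν) : Ω → ℝ) =ᵐ[ν]
      fun ω => ∑ m ∈ F, (if m ∈ A then g m ω else - g m ω) := by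
  induction F using Finset.induction_on with
  | empty =>
    simp only [Finset.sum_empty]
    exact Lp.coeFn_zero ℝ 1 ν
  | insert a s ha ih =>
    have h1 : ((if a ∈ A then g a else - g a : Lp ℝ 1 ν) : Ω → ℝ) =ᵐ[ν]
        fun ω => (if a ∈ A then g a ω else - g a ω) := by
      by_cases hA : a ∈ A
      · simp only [hA, if_true]
        exact Filter.EventuallyEq.rfl
      · simp only [hA, if_false]
        filter_upwards [Lp.coeFn_neg (g a)] with ω hω
        rw [hω]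
        rfl
    rw [Finset.sum_insert ha]
    filter_upwards [Lp.coeFn_add (if a ∈ A then g a else - g a)
      (∑ m ∈ s, (if m ∈ A then g m else - g m)), ih, h1] with ω h2 h3 h4
    rw [h2, Pi.add_apply, h3, h4, Finset.sum_insert ha]

theorem star {Ω : Type} [MeasurableSpace Ω] (ν : Measure Ω) [IsProbabilityMeasure ν]
    {X : Type u} [NormedAddCommGroup X] [NormedSpace ℝ X]
    (J : ℕ → (X →ₗ[ℝ] Lp ℝ 1 ν)) (c C : ℝ) (hc : 0 < c) (hC : 0 < C)
    (h : ∀ (F : Finset ℕ) (x : ℕ → X),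
        c * √(∑ m ∈ F, ‖x m‖ ^ 2) ≤ ‖∑ m ∈ F, J m (x m)‖ ∧
        ‖∑ m ∈ F, J m (x m)‖ ≤ C * √(∑ m ∈ F, ‖x m‖ ^ 2)) (F : Finset ℕ) (x : ℕ → X) :
    c * √(∑ m ∈ F, ‖x m‖ ^ 2) ≤ ∫ ω, √(∑ m ∈ F, (J m (x m) ω) ^ 2) ∂ν ∧
    ∫ ω, √(∑ m ∈ F, (J m (x m) ω) ^ 2) ∂ν ≤ (2 * C) * √(∑ m ∈ F, ‖x m‖ ^ 2) := by
  set S : ℝ := √(∑ m ∈ F, ‖x m‖ ^ 2) with hS
  let g : ℕ → Lp ℝ 1 ν := fun m => J m (x m)
  let q : Finset ℕ → Ω → ℝ := fun A ω => |∑ m ∈ F, (if m ∈ A then g m ω else - g m ω)|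
  have hqint : ∀ A, Integrable (q A) ν := by
    intro A
    have h1 := L1.integrable_coeFn (∑ m ∈ F, (if m ∈ A then g m else - g m) : Lp ℝ 1 ν)
    exact (h1.congr (star_sum_ae ν A g F)).abs
  have hqval : ∀ A : Finset ℕ, ∫ ω, q A ω ∂ν = ‖(∑ m ∈ F, (if m ∈ A then g m else - g m) : Lp ℝ 1 ν)‖ := by
    intro A
    rw [L1.norm_eq_integral_norm]
    apply integral_congr_ae
    filter_upwards [star_sum_ae ν A g F] with ω hω
    rw [hω, Real.norm_eq_abs]
  have hJ : ∀ A : Finset ℕ, (∑ m ∈ F, (if m ∈ A then g m else - g m) : Lp ℝ 1 ν) =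
      ∑ m ∈ F, J m (if m ∈ A then x m else - x m) := by
    intro A
    apply Finset.sum_congr rfl
    intro m _
    by_cases hA : m ∈ A
    · simp only [hA, if_true, g]
    · simp only [hA, if_false, g, map_neg]
  have hnorm : ∀ A : Finset ℕ, √(∑ m ∈ F, ‖(if m ∈ A then x m else - x m)‖ ^ 2) = S := by
    intro A
    rw [hS]
    congr 1
    apply Finset.sum_congr rfl
    intro m _
    by_cases hA : m ∈ A
    · simp only [hA, if_true]
    · simp only [hA, if_false, norm_neg]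
  have hq1 : ∀ A, c * S ≤ ∫ ω, q A ω ∂ν := by
    intro A
    have := (h F (fun m => if m ∈ A then x m else - x m)).1
    rw [hnorm A, ← hJ A] at this
    rw [hqval]
    exact this
  have hq2 : ∀ A, ∫ ω, q A ω ∂ν ≤ C * S := by
    intro A
    have := (h F (fun m => if m ∈ A then x m else - x m)).2
    rw [hnorm A, ← hJ A] at this
    rw [hqval]
    exact this
  let Q : Ω → ℝ := fun ω => (∑ A ∈ F.powerset, q A ω) / 2 ^ F.card
  have hQint : Integrable Q ν :=
    (integrable_finsetSum _ (fun A _ => hqint A)).div_const _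
  have hQval : ∫ ω, Q ω ∂ν = (∑ A ∈ F.powerset, ∫ ω, q A ω ∂ν) / 2 ^ F.card := by
    have h1 : ∫ ω, Q ω ∂ν = (∫ ω, ∑ A ∈ F.powerset, q A ω ∂ν) / 2 ^ F.card :=
      integral_div _ _
    rw [h1, integral_finsetSum _ (fun A _ => hqint A)]
  have h2pos : (0 : ℝ) < 2 ^ F.card := by positivity
  have hQ1 : c * S ≤ ∫ ω, Q ω ∂ν := by
    rw [hQval, le_div_iff₀ h2pos]
    have h1 := Finset.sum_le_sum (fun A (_ : A ∈ F.powerset) => hq1 A)
    rw [Finset.sum_const, Finset.card_powerset, nsmul_eq_mul] at h1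
    push_cast at h1
    linarith
  have hQ2 : ∫ ω, Q ω ∂ν ≤ C * S := by
    rw [hQval, div_le_iff₀ h2pos]
    have h1 := Finset.sum_le_sum (fun A (_ : A ∈ F.powerset) => hq2 A)
    rw [Finset.sum_const, Finset.card_powerset, nsmul_eq_mul] at h1
    push_cast at h1
    linarith
  have hkh : ∀ ω, (1 / 2) * √(∑ m ∈ F, (g m ω) ^ 2) ≤ Q ω ∧
      Q ω ≤ √(∑ m ∈ F, (g m ω) ^ 2) := fun ω => khin F (fun m => g m ω)
  have hmeas : AEStronglyMeasurable (fun ω => √(∑ m ∈ F, (g m ω) ^ 2)) ν := by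
    apply Real.continuous_sqrt.comp_aestronglyMeasurable
    apply Finset.aestronglyMeasurable_fun_sum
    intro m _
    exact (Lp.aestronglyMeasurable (g m)).pow 2
  have hRint : Integrable (fun ω => √(∑ m ∈ F, (g m ω) ^ 2)) ν := by
    refine (hQint.const_mul 2).mono' hmeas (Filter.Eventually.of_forall fun ω => ?_)
    rw [Real.norm_eq_abs, abs_of_nonneg (Real.sqrt_nonneg _)]
    have := (hkh ω).1
    linarith
  constructor
  · exact hQ1.trans (integral_mono hQint hRint (fun ω => (hkh ω).2))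
  · have h1 := integral_mono (hRint.const_mul (1 / 2)) hQint (fun ω => (hkh ω).1)
    rw [integral_const_mul] at h1
    have h3 : ∫ ω, √(∑ m ∈ F, (J m (x m) ω) ^ 2) ∂ν = ∫ ω, √(∑ m ∈ F, (g m ω) ^ 2) ∂ν := rfl
    rw [h3]
    linarith

end Pool.Agent.LNN
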