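import Pool.Agent.Helper547.LN.Defs

set_option autoImplicit false

open MeasureTheory ProbabilityTheory Filter Topology
open scoped ENNReal NNReal unitInterval

universe u v w

namespace Pool.Agent.LNN



attribute [local instance] Lp.simpleFunc.module Lp.simpleFunc.normedSpace

noncomputable def phi782 (s : SimpleFunc ℝ (L1I ℝ)) (p : ℝ × ℝ) : ℝ :=
  ((s p.1 : L1I ℝ) : ℝ → ℝ) p.2

lemma phi782_meas (s : SimpleFunc ℝ (L1I ℝ)) : Measurable (phi782 s) :=
  SimpleFunc.measurable_bind (s.comp Prod.fst measurable_fst)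
    (fun (b : L1I ℝ) (a : ℝ × ℝ) => (b : ℝ → ℝ) a.2)
    (fun b => ((Lp.stronglyMeasurable b).measurable).comp measurable_snd)

lemma phi782_lint (s : SimpleFunc ℝ (L1I ℝ)) :
    eLpNorm (phi782 s) 1 (mu01.prod mu01) = eLpNorm s 1 mu01 := by
  rw [eLpNorm_one_eq_lintegral_enorm, eLpNorm_one_eq_lintegral_enorm,
    lintegral_prod _ (phi782_meas s).enorm.aemeasurable]
  refine lintegral_congr fun t => ?_
  rw [Lp.enorm_def, eLpNorm_one_eq_lintegral_enorm]
  rfl

lemma phi782_memLp (f : Lp.simpleFunc (L1I ℝ) 1 mu01) :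
    MemLp (phi782 (Lp.simpleFunc.toSimpleFunc f)) 1 (mu01.prod mu01) :=
  ⟨(phi782_meas _).aestronglyMeasurable, by
    rw [phi782_lint]; exact (Lp.simpleFunc.memLp f).2⟩

lemma phi782_add (f g : Lp.simpleFunc (L1I ℝ) 1 mu01) :
    phi782 (Lp.simpleFunc.toSimpleFunc (f + g)) =ᵐ[mu01.prod mu01]
      phi782 (Lp.simpleFunc.toSimpleFunc f) + phi782 (Lp.simpleFunc.toSimpleFunc g) := by
  have key : ∀ᵐ p ∂(mu01.prod mu01), phi782 (Lp.simpleFunc.toSimpleFunc (f + g)) p =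
      phi782 (Lp.simpleFunc.toSimpleFunc f) p + phi782 (Lp.simpleFunc.toSimpleFunc g) p := by
    refine (Measure.ae_prod_iff_ae_ae (measurableSet_eq_fun (phi782_meas _)
      ((phi782_meas _).add (phi782_meas _)))).2 ?_
    filter_upwards [Lp.simpleFunc.add_toSimpleFunc f g] with t ht
    have h2 : Lp.simpleFunc.toSimpleFunc (f + g) t =
      Lp.simpleFunc.toSimpleFunc f t + Lp.simpleFunc.toSimpleFunc g t := ht
    filter_upwards [Lp.coeFn_add (Lp.simpleFunc.toSimpleFunc f t)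
      (Lp.simpleFunc.toSimpleFunc g t)] with u hu
    simp only [phi782, h2]
    exact hu
  exact key

lemma phi782_smul (c : ℝ) (f : Lp.simpleFunc (L1I ℝ) 1 mu01) :
    phi782 (Lp.simpleFunc.toSimpleFunc (c • f)) =ᵐ[mu01.prod mu01]
      c • phi782 (Lp.simpleFunc.toSimpleFunc f) := by
  have key : ∀ᵐ p ∂(mu01.prod mu01), phi782 (Lp.simpleFunc.toSimpleFunc (c • f)) p =
      c • phi782 (Lp.simpleFunc.toSimpleFunc f) p := by
    refine (Measure.ae_prod_iff_ae_ae (measurableSet_eq_fun (phi782_meas _)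
      ((phi782_meas _).const_smul c))).2 ?_
    filter_upwards [Lp.simpleFunc.smul_toSimpleFunc c f] with t ht
    have h2 : Lp.simpleFunc.toSimpleFunc (c • f) t =
      c • Lp.simpleFunc.toSimpleFunc f t := ht
    filter_upwards [Lp.coeFn_smul c (Lp.simpleFunc.toSimpleFunc f t)] with u hu
    simp only [phi782, h2]
    exact hu
  exact key

noncomputable def L782 : Lp.simpleFunc (L1I ℝ) 1 mu01 →ₗ[ℝ] Lp ℝ 1 (mu01.prod mu01) where
  toFun f := (phi782_memLp f).toLp _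
  map_add' f g := by
    rw [← MemLp.toLp_add, MemLp.toLp_eq_toLp_iff]
    exact phi782_add f g
  map_smul' c f := by
    rw [RingHom.id_apply, ← MemLp.toLp_const_smul, MemLp.toLp_eq_toLp_iff]
    exact phi782_smul c f

lemma L782_norm (f : Lp.simpleFunc (L1I ℝ) 1 mu01) : ‖L782 f‖ = ‖f‖ := by
  have h : L782 f = (phi782_memLp f).toLp _ := rfl
  rw [h, Lp.norm_toLp, phi782_lint, Lp.simpleFunc.norm_toSimpleFunc]

theorem theta : ∃ T : L1I (L1I ℝ) →L[ℝ] Lp ℝ 1 (mu01.prod mu01), ∀ f, ‖T f‖ = ‖f‖ := by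
  classical
  let L : Lp.simpleFunc (L1I ℝ) 1 mu01 →L[ℝ] Lp ℝ 1 (mu01.prod mu01) :=
    L782.mkContinuous 1 (fun f => by rw [L782_norm, one_mul])
  have hd : DenseRange (Lp.simpleFunc.coeToLp ℝ (L1I ℝ) ℝ (p := 1) (μ := mu01)) :=
    Lp.simpleFunc.denseRange ENNReal.one_ne_top
  have hu : IsUniformInducing (Lp.simpleFunc.coeToLp ℝ (L1I ℝ) ℝ (p := 1) (μ := mu01)) :=
    Lp.simpleFunc.isUniformInducing
  refine ⟨L.extend (Lp.simpleFunc.coeToLp ℝ (L1I ℝ) ℝ), fun f => ?_⟩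
  refine hd.induction_on (p := fun f => ‖L.extend (Lp.simpleFunc.coeToLp ℝ (L1I ℝ) ℝ) f‖ = ‖f‖) f ?_ ?_
  · exact isClosed_eq (ContinuousLinearMap.continuous _).norm continuous_norm
  · intro g
    rw [ContinuousLinearMap.extend_eq L hd hu]
    exact L782_norm g

end Pool.Agent.LNN
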